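import Pool.Agent.W353.AT.Perm

/-! Finitely many Artin representations with a non-zero limit, and the sizes over all number fields. -/

set_option autoImplicit false

namespace Pool.Agent.W353.AT

open Complex Filter Topology ComplexConjugate Pool.Agent.H341R2 NumberField IsDedekindDomain
  Pool.Agent.W401.Cheb Pool.Agent.W540.BE Pool.Agent.W353.L1
open Pool.Agent.W353.NF (act act_apply act_trans fixn fixn_conj fixn_inv ker_act_open cz abs_cz
  fixn_le)

section
variable {K : Type} [Field K] [NumberField K]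

/-- irreducible Artin representations -/
def Irr (x : MRep (GK K)) : Prop := IsArtin x.2 ∧ x.2.IsIrreducible

/-- the correlation of `T` with a representation has a limit -/
def Lim (T : HeightOneSpectrum (𝓞 K) → ℝ) (σ : HeightOneSpectrum (𝓞 K) → GK K)
    (x : MRep (GK K)) (t δ : ℝ) : Prop :=
  Tendsto (fun ε : ℝ => (EP (nm K) ε fun v => T v * RR x.2 t σ v) / lam ε) (𝓝[>] 0) (𝓝 δ)

/-- equivalent representations -/
def Sim (x y : MRep (GK K)) : Prop := Nonempty (x.2.Equiv y.2)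

theorem Sim.refl (x : MRep (GK K)) : Sim x x := ⟨Representation.Equiv.refl _⟩

theorem Sim.symm {x y : MRep (GK K)} (h : Sim x y) : Sim y x := h.map fun e => e.symm

theorem Sim.trans {x y z : MRep (GK K)} (h : Sim x y) (h' : Sim y z) : Sim x z := by
  obtain ⟨e⟩ := h
  obtain ⟨e'⟩ := h'
  exact ⟨e.trans e'⟩

theorem Sim.char {x y : MRep (GK K)} (h : Sim x y) : x.2.character = y.2.character := by
  obtain ⟨e⟩ := h
  exact Representation.char_iso e

theorem Sim.RR {x y : MRep (GK K)} (h : Sim x y) (t : ℝ)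
    (σ : HeightOneSpectrum (𝓞 K) → GK K) : L1.RR x.2 t σ = L1.RR y.2 t σ := by
  funext v
  unfold L1.RR
  rw [h.char]

theorem Lim.unique {T : HeightOneSpectrum (𝓞 K) → ℝ} {σ : HeightOneSpectrum (𝓞 K) → GK K}
    {x y : MRep (GK K)} {t δ δ' : ℝ} (h : Lim T σ x t δ) (h' : Lim T σ y t δ') (hs : Sim x y) :
    δ = δ' := by
  unfold Lim at h h'
  rw [hs.RR] at h
  exact tendsto_nhds_unique h h'

variable (𝒯 : Set ℝ) (δ : MRep (GK K) → ℝ → ℤ)

/-- finite sets of different pairs with non-zero limits -/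
structure OK (E : Finset (MRep (GK K) × ℝ)) : Prop where
  irr : ∀ p ∈ E, Irr p.1
  mem : ∀ p ∈ E, p.2 ∈ 𝒯
  ne : ∀ p ∈ E, δ p.1 p.2 ≠ 0
  ineq : ∀ p ∈ E, ∀ q ∈ E, p ≠ q → p.2 = q.2 → ¬ Sim p.1 q.1

variable {𝒯 δ} {T : HeightOneSpectrum (𝓞 K) → ℝ} {s : ℕ} (hT : ∀ v, |T v| ≤ s)
  {σ : HeightOneSpectrum (𝓞 K) → GK K} (hσ : ∀ v, IsFrob v (σ v))
  (hδ : ∀ x, Irr x → ∀ t ∈ 𝒯, Lim T σ x t (δ x t))

include hT hσ hδ in
theorem OK.bound {E : Finset (MRep (GK K) × ℝ)} (hE : OK 𝒯 δ E) :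
    ∑ p ∈ E, (δ p.1 p.2) ^ 2 ≤ (s : ℤ) ^ 2 := by
  classical
  obtain ⟨U, hUn, hU, hρ⟩ := exists_common (κ := E) (n := fun k => k.1.1.1)
    (fun k => k.1.1.2) fun k => (hE.irr k.1 k.2).1
  have hfin : Finite (GK K ⧸ U) := Subgroup.quotient_finite_of_isOpen U hU
  have h1 := bessel_lim U hU (κ := E) Finset.univ (n := fun k => k.1.1.1) (fun k => k.1.1.2) hρ
    (fun k => k.1.2) σ hσ (Nat.cast_nonneg s) hT
    (x := fun k ε => (EP (nm K) ε fun v => T v * RR k.1.1.2 k.1.2 σ v) / lam ε)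
    (fun k _ => by
      simp only [sub_self]
      exact tendsto_const_nhds)
    (fun k _ => (hE.irr k.1 k.2).2) (fun k _ l _ hkl ht => by
      have := hE.ineq k.1 k.2 l.1 l.2 (fun h => hkl (Subtype.ext h)) ht
      exact not_nonempty_iff.1 this)
    (y := fun k => ((δ k.1.1 k.1.2 : ℤ) : ℝ))
    (fun k _ => hδ k.1.1 (hE.irr k.1 k.2) k.1.2 (hE.mem k.1 k.2))
  have h2 : ∑ k : E, (((δ k.1.1 k.1.2 : ℤ) : ℝ)) ^ 2 =
      ((∑ p ∈ E, (δ p.1 p.2) ^ 2 : ℤ) : ℝ) := by
    rw [Finset.sum_coe_sort E (fun p => (((δ p.1 p.2 : ℤ) : ℝ)) ^ 2)]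
    push_cast
    rfl
  rw [h2] at h1
  exact_mod_cast h1

include hT hσ hδ in
theorem OK.card {E : Finset (MRep (GK K) × ℝ)} (hE : OK 𝒯 δ E) : E.card ≤ s ^ 2 := by
  have h1 := hE.bound hT hσ hδ
  have h2 : (E.card : ℤ) ≤ ∑ p ∈ E, (δ p.1 p.2) ^ 2 := by
    rw [Finset.card_eq_sum_ones, Nat.cast_sum]
    refine Finset.sum_le_sum fun p hp => ?_
    have h3 : 0 < (δ p.1 p.2) ^ 2 := by
      have := hE.ne p hp
      positivity
    push_cast
    omega
  have h3 := h2.trans h1
  exact_mod_cast h3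

include hT hσ hδ in
/-- **There are only finitely many pairs with a non-zero limit.** -/
theorem exists_E : ∃ E : Finset (MRep (GK K) × ℝ), OK 𝒯 δ E ∧
    ∀ x t, Irr x → t ∈ 𝒯 → δ x t ≠ 0 → ∃ p ∈ E, p.2 = t ∧ Sim x p.1 := by
  classical
  set S : Set ℕ := {k | ∃ E : Finset (MRep (GK K) × ℝ), OK 𝒯 δ E ∧ E.card = k} with hS
  have hne : S.Nonempty := by
    refine ⟨0, ∅, ⟨?_, ?_, ?_, ?_⟩, rfl⟩
    · intro p hp
      exact absurd hp (Finset.notMem_empty _)
    · intro p hp
      exact absurd hp (Finset.notMem_empty _)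
    · intro p hp
      exact absurd hp (Finset.notMem_empty _)
    · intro p hp
      exact absurd hp (Finset.notMem_empty _)
  have hbdd : BddAbove S := by
    refine ⟨s ^ 2, ?_⟩
    rintro k ⟨E, hE, rfl⟩
    exact hE.card hT hσ hδ
  obtain ⟨E, hE, hEc⟩ := Nat.sSup_mem hne hbdd
  refine ⟨E, hE, fun x t hx ht hd => ?_⟩
  by_contra hcon
  push Not at hcon
  have hnot : (x, t) ∉ E := fun h => hcon (x, t) h rfl (Sim.refl x)
  have hOK : OK 𝒯 δ (insert (x, t) E) := by
    refine ⟨?_, ?_, ?_, ?_⟩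
    · intro p hp
      rcases Finset.mem_insert.1 hp with rfl | hp
      · exact hx
      · exact hE.irr p hp
    · intro p hp
      rcases Finset.mem_insert.1 hp with rfl | hp
      · exact ht
      · exact hE.mem p hp
    · intro p hp
      rcases Finset.mem_insert.1 hp with rfl | hp
      · exact hd
      · exact hE.ne p hp
    · intro p hp q hq hpq hpq2
      rcases Finset.mem_insert.1 hp with rfl | hp
      · rcases Finset.mem_insert.1 hq with rfl | hq
        · exact absurd rfl hpq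
        · exact hcon q hq hpq2.symm
      · rcases Finset.mem_insert.1 hq with rfl | hq
        · exact fun h => hcon p hp hpq2 h.symm
        · exact hE.ineq p hp q hq hpq hpq2
  have h1 : (insert (x, t) E).card ≤ sSup S := le_csSup hbdd ⟨_, hOK, rfl⟩
  rw [Finset.card_insert_of_notMem hnot, ← hEc] at h1
  omega

open Classical in
/-- how often `y` occurs in a list -/
noncomputable def mult (L : List (MRep (GK K))) (y : MRep (GK K)) : ℕ :=
  (L.map fun x => if Sim x y then 1 else 0).sum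

/-- the sum of the limits over a list -/
theorem sum_list (hcong : ∀ x y, Irr x → Irr y → Sim x y → ∀ t ∈ 𝒯, δ x t = δ y t)
    {E : Finset (MRep (GK K) × ℝ)} (hE : OK 𝒯 δ E)
    (hE2 : ∀ x t, Irr x → t ∈ 𝒯 → δ x t ≠ 0 → ∃ p ∈ E, p.2 = t ∧ Sim x p.1) {t : ℝ} (ht : t ∈ 𝒯)
    [DecidablePred fun p : MRep (GK K) × ℝ => p.2 = t]
    (L : List (MRep (GK K))) (hL : ∀ x ∈ L, Irr x) :
    (L.map fun x => δ x t).sum = ∑ p ∈ E with p.2 = t, δ p.1 t * mult L p.1 := by
  classical
  induction L with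
  | nil =>
    rw [List.map_nil, List.sum_nil]
    refine (Finset.sum_eq_zero fun p _ => ?_).symm
    unfold mult
    rw [List.map_nil, List.sum_nil, Nat.cast_zero, mul_zero]
  | cons x L ih =>
    have ih := ih fun y hy => hL y (List.mem_cons_of_mem _ hy)
    have hx := hL x List.mem_cons_self
    rw [List.map_cons, List.sum_cons, ih]
    have e1 : ∀ p : MRep (GK K) × ℝ, (mult (x :: L) p.1 : ℤ) =
        (if Sim x p.1 then 1 else 0) + mult L p.1 := by
      intro p
      unfold mult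
      rw [List.map_cons, List.sum_cons]
      push_cast
      rfl
    have e2 : ∑ p ∈ E with p.2 = t, δ p.1 t * (mult (x :: L) p.1 : ℤ) =
        (∑ p ∈ E with p.2 = t, δ p.1 t * (if Sim x p.1 then 1 else 0)) +
          ∑ p ∈ E with p.2 = t, δ p.1 t * (mult L p.1 : ℤ) := by
      rw [← Finset.sum_add_distrib]
      refine Finset.sum_congr rfl fun p _ => ?_
      rw [e1, mul_add]
    rw [e2]
    congr 1
    by_cases hd : δ x t = 0
    · rw [hd]
      refine (Finset.sum_eq_zero fun p hp => ?_).symm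
      obtain ⟨hp, hpt⟩ := Finset.mem_filter.1 hp
      rw [if_neg, mul_zero]
      intro hs
      apply hE.ne p hp
      rw [hpt, ← hcong x p.1 hx (hE.irr p hp) hs t ht, hd]
    · obtain ⟨p, hp, hpt, hs⟩ := hE2 x t hx ht hd
      rw [Finset.sum_eq_single p]
      · rw [if_pos hs, mul_one]
        exact hcong x p.1 hx (hE.irr p hp) hs t ht
      · intro q hq hqp
        obtain ⟨hq, hqt⟩ := Finset.mem_filter.1 hq
        rw [if_neg, mul_zero]
        intro hs'
        exact hE.ineq q hq p hp hqp (hqt.trans hpt.symm) (hs'.symm.trans hs)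
      · intro h
        exact absurd (Finset.mem_filter.2 ⟨hp, hpt⟩) h

end

end Pool.Agent.W353.AT
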