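import Pool.Agent.W353.AT.Abs

/-! The sizes over all number fields in terms of finitely many Artin representations. -/

set_option autoImplicit false

namespace Pool.Agent.W353.AT

open Complex Filter Topology ComplexConjugate Pool.Agent.H341R2 NumberField IsDedekindDomain
  Pool.Agent.W401.Cheb Pool.Agent.W540.BE Pool.Agent.W353.L1
open Pool.Agent.W353.NF (act act_apply act_trans fixn fixn_conj fixn_inv ker_act_open cz abs_cz
  fixn_le)

section
variable {K : Type} [Field K] [NumberField K]

/-- the stabilizer of an embedding -/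
theorem act_fix_iff {F : Type} [Field F] [NumberField F] [Algebra K F]
    (i₀ : F →ₐ[K] AlgebraicClosure K) (g : GK K) :
    act K F g i₀ = i₀ ↔ g ∈ i₀.fieldRange.fixingSubgroup := by
  rw [act_apply, IntermediateField.mem_fixingSubgroup_iff]
  constructor
  · rintro h _ ⟨x, rfl⟩
    exact DFunLike.congr_fun h x
  · intro h
    exact AlgHom.ext fun x => h (i₀ x) ⟨x, rfl⟩

/-- **The multiplicity is the dimension of the invariants.** -/
theorem mult_eq {F : Type} [Field F] [NumberField F] [Algebra K F]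
    (i₀ : F →ₐ[K] AlgebraicClosure K) (U : Subgroup (GK K)) [U.Normal] [Finite (GK K ⧸ U)]
    (hF : ∀ u ∈ U, act K F u = 1) (L : List (MRep (GK K)))
    (hL : ∀ x ∈ L, x.2.IsIrreducible ∧ ∀ u ∈ U, x.2 u = 1)
    (hfix : ∀ g, (fixn K F g : ℂ) = (L.map fun x => x.2.character g).sum)
    (y : MRep (GK K)) (hy : y.2.IsIrreducible) (hyU : ∀ u ∈ U, y.2 u = 1) :
    mult L y = Module.finrank ℂ (invC y.2 i₀.fieldRange.fixingSubgroup) := by
  classical
  let _ : Fintype (GK K ⧸ U) := Fintype.ofFinite _
  have hc0 : (Nat.card (GK K ⧸ U) : ℂ) ≠ 0 := by exact_mod_cast Nat.card_pos.ne'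
  -- the multiplicity as a sum
  have h1 : ∀ L' : List (MRep (GK K)), (∀ x ∈ L', x.2.IsIrreducible ∧ ∀ u ∈ U, x.2 u = 1) →
      (Nat.card (GK K ⧸ U) : ℂ) * mult L' y = ∑ q : GK K ⧸ U, (qrep U y.2 hyU).character q *
        (L'.map fun x => x.2.character (q⁻¹).out).sum := by
    intro L' hL'
    induction L' with
    | nil =>
      unfold mult
      simp
    | cons x L' ih =>
      have ih := ih fun z hz => hL' z (List.mem_cons_of_mem _ hz)
      obtain ⟨hx1, hx2⟩ := hL' x List.mem_cons_self
      have e1 : (mult (x :: L') y : ℂ) = (if Sim x y then 1 else 0) + mult L' y := by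
        unfold mult
        rw [List.map_cons, List.sum_cons]
        push_cast
        rfl
      have h2 := ortho U y.2 hyU hy x.2 hx2 hx1
      rw [finsum_eq_sum_of_fintype, inv_mul_eq_iff_eq_mul₀ hc0] at h2
      have e2 : (if Nonempty (y.2.Equiv x.2) then (1 : ℂ) else 0) = if Sim x y then 1 else 0 := by
        by_cases h : Sim x y
        · rw [if_pos h, if_pos (show Nonempty (y.2.Equiv x.2) from h.symm)]
        · rw [if_neg h, if_neg (fun h' : Nonempty (y.2.Equiv x.2) => h (Sim.symm h'))]
      rw [e1, mul_add, ih, ← e2, ← h2, ← Finset.sum_add_distrib]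
      refine Finset.sum_congr rfl fun q _ => ?_
      rw [List.map_cons, List.sum_cons, mul_add]
      congr 2
      conv_lhs => rw [← QuotientGroup.out_eq' q⁻¹]
      rfl
  have h2 := h1 L hL
  -- the action of the quotient
  set a : GK K ⧸ U →* Equiv.Perm (F →ₐ[K] AlgebraicClosure K) :=
    QuotientGroup.lift U (act K F) hF with ha
  have hak : ∀ g : GK K, a (QuotientGroup.mk g) = act K F g := fun g => rfl
  let H : Subgroup (GK K ⧸ U) :=
    { carrier := {g | a g i₀ = i₀}
      one_mem' := by
        change a 1 i₀ = i₀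
        rw [map_one]; rfl
      mul_mem' := fun {g g'} hg hg' => by
        change a (g * g') i₀ = i₀
        rw [map_mul, Equiv.Perm.mul_apply]
        exact (congrArg _ hg').trans hg
      inv_mem' := fun {g} hg => by
        change a g⁻¹ i₀ = i₀
        have h : a g i₀ = i₀ := hg
        rw [map_inv]
        conv_lhs => rw [← h]
        exact (a g).symm_apply_apply i₀ }
  have hne : Nonempty (F →ₐ[K] AlgebraicClosure K) := ⟨i₀⟩
  have h3 := sumC_char_fix (Y := F →ₐ[K] AlgebraicClosure K) (qrep U y.2 hyU) a (fun i j => by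
    obtain ⟨σ, hσ⟩ := act_trans K F i j
    exact ⟨QuotientGroup.mk σ, hσ⟩) i₀ H (fun g => Iff.rfl)
  have h4 : invC (qrep U y.2 hyU) H = invC y.2 i₀.fieldRange.fixingSubgroup := by
    ext x
    rw [mem_invC, mem_invC]
    constructor
    · intro h g hg
      exact h (QuotientGroup.mk g) ((act_fix_iff i₀ g).2 hg)
    · intro h g hg
      obtain ⟨g, rfl⟩ := QuotientGroup.mk_surjective g
      exact h g ((act_fix_iff i₀ g).1 hg)
  rw [h4] at h3
  have h5 : ∀ q : GK K ⧸ U, (L.map fun x => x.2.character (q⁻¹).out).sum =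
      (Nat.card {i // a q i = i} : ℂ) := by
    intro q
    rw [← hfix]
    obtain ⟨g, rfl⟩ := QuotientGroup.mk_surjective q
    rw [hak]
    have h6 : (QuotientGroup.mk ((QuotientGroup.mk g : GK K ⧸ U)⁻¹).out : GK K ⧸ U) =
        QuotientGroup.mk g⁻¹ := QuotientGroup.out_eq' _
    have h7 : act K F ((QuotientGroup.mk g : GK K ⧸ U)⁻¹).out = act K F g⁻¹ := by
      rw [← hak, h6, hak]
    have h8 : fixn K F ((QuotientGroup.mk g : GK K ⧸ U)⁻¹).out = fixn K F g⁻¹ := by
      unfold fixn
      rw [h7]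
    rw [h8, fixn_inv]
    rfl
  rw [Finset.sum_congr rfl fun q _ => by rw [h5 q], h3, ← Nat.card_eq_fintype_card] at h2
  have h6 := mul_left_cancel₀ hc0 h2
  exact_mod_cast h6

/-- mean values over a list -/
theorem has_list {T : HeightOneSpectrum (𝓞 K) → ℝ} {s : ℝ} (hs : 0 ≤ s) (hT : ∀ v, |T v| ≤ s)
    (σ : HeightOneSpectrum (𝓞 K) → GK K) (U : Subgroup (GK K)) [U.Normal] [Finite (GK K ⧸ U)]
    (t : ℝ) (d : MRep (GK K) → ℝ) (L : List (MRep (GK K)))
    (hL : ∀ x ∈ L, (∀ u ∈ U, x.2 u = 1) ∧ Lim T σ x t (d x)) :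
    Has (fun v => T v * (L.map fun x => RR x.2 t σ v).sum) (L.map d).sum := by
  induction L with
  | nil =>
    have h0 : Has (F := K) (fun _ => (0 : ℝ) * 1) (0 * 1) := has_one.const_mul 0
    refine h0.congr (fun v => ?_) ?_
    · simp
    · simp
  | cons x L ih =>
    have ih := ih fun y hy => hL y (List.mem_cons_of_mem _ hy)
    obtain ⟨h1, h2⟩ := hL x List.mem_cons_self
    have h3 : Has (fun v => T v * RR x.2 t σ v) (d x) := by
      refine ⟨⟨s * x.1, fun v => ?_⟩, h2⟩
      rw [abs_mul]
      exact mul_le_mul (hT v) (abs_RR_le U x.2 h1 _ _ _) (abs_nonneg _) hs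
    refine (h3.add ih).congr (fun v => ?_) ?_
    · rw [List.map_cons, List.sum_cons, mul_add]
    · rw [List.map_cons, List.sum_cons]

variable {𝒯 : Set ℝ} {δ : MRep (GK K) → ℝ → ℤ} {T : HeightOneSpectrum (𝓞 K) → ℝ} {s : ℝ}
  (hs : 0 ≤ s) (hT : ∀ v, |T v| ≤ s) {σ : HeightOneSpectrum (𝓞 K) → GK K}
  (hδ : ∀ x, Irr x → ∀ t ∈ 𝒯, Lim T σ x t (δ x t))

include hs hT hδ in
/-- **The mean value over a number field.** -/
theorem has_F {E : Finset (MRep (GK K) × ℝ)} (hE : OK 𝒯 δ E)
    (hE2 : ∀ x t, Irr x → t ∈ 𝒯 → δ x t ≠ 0 → ∃ p ∈ E, p.2 = t ∧ Sim x p.1) {t : ℝ} (ht : t ∈ 𝒯)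
    [DecidablePred fun p : MRep (GK K) × ℝ => p.2 = t]
    {F : Type} [Field F] [NumberField F] [Algebra K F] (i₀ : F →ₐ[K] AlgebraicClosure K) :
    Has (fun v => T v * (fixn K F (σ v) * cz t v))
      ((∑ p ∈ E with p.2 = t, δ p.1 t *
        Module.finrank ℂ (invC p.1.2 i₀.fieldRange.fixingSubgroup) : ℤ) : ℝ) := by
  classical
  obtain ⟨U₁, hU₁n, hU₁, hρ⟩ := exists_common (κ := E) (n := fun k => k.1.1.1)
    (fun k => k.1.1.2) fun k => (hE.irr k.1 k.2).1
  set U := U₁ ⊓ (act K F).ker with hUd
  have hU : IsOpen (U : Set (GK K)) := by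
    rw [hUd, Subgroup.coe_inf]
    exact hU₁.inter (ker_act_open K F)
  have hfin : Finite (GK K ⧸ U) := Subgroup.quotient_finite_of_isOpen U hU
  have hF : ∀ u ∈ U, act K F u = 1 := fun u hu => (MonoidHom.mem_ker).1 hu.2
  obtain ⟨L, hL, hfix⟩ := fix_decomp K F U hF
  have hIrr : ∀ x ∈ L, Irr x := fun x hx => ⟨⟨U, hU, (hL x hx).2⟩, (hL x hx).1⟩
  have h1 := has_list hs hT σ U t (fun x => ((δ x t : ℤ) : ℝ)) L
    (fun x hx => ⟨(hL x hx).2, hδ x (hIrr x hx) t ht⟩)
  have hcong : ∀ x y, Irr x → Irr y → Sim x y → ∀ t ∈ 𝒯, δ x t = δ y t := by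
    intro x y hx hy hs t ht
    have := (hδ x hx t ht).unique (hδ y hy t ht) hs
    exact_mod_cast this
  have h2 := sum_list hcong hE hE2 ht L hIrr
  refine h1.congr (fun v => ?_) ?_
  · congr 1
    have e1 : ∀ L' : List (MRep (GK K)), (L'.map fun x => RR x.2 t σ v).sum =
        ((L'.map fun x => x.2.character (σ v)⁻¹).sum * zz t v).re := by
      intro L'
      induction L' with
      | nil => simp
      | cons x L' ih =>
        rw [List.map_cons, List.sum_cons, ih, List.map_cons, List.sum_cons, add_mul,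
          Complex.add_re]
        rfl
    rw [e1, ← hfix, fixn_inv]
    unfold cz
    have e2 : ((fixn K F (σ v) : ℕ) : ℂ) = (((fixn K F (σ v) : ℕ) : ℝ) : ℂ) := by push_cast; rfl
    rw [e2, Complex.re_ofReal_mul]
  · have e3 : (L.map fun x => ((δ x t : ℤ) : ℝ)).sum = (((L.map fun x => δ x t).sum : ℤ) : ℝ) := by
      have := map_list_sum (Int.castRingHom ℝ) (L.map fun x => δ x t)
      rw [List.map_map] at this
      exact this.symm
    rw [e3, h2]
    congr 1
    refine Finset.sum_congr rfl fun p hp => ?_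
    obtain ⟨hp, -⟩ := Finset.mem_filter.1 hp
    rw [mult_eq i₀ U hF L hL hfix p.1 (hE.irr p hp).2 fun u hu => hρ ⟨p, hp⟩ u hu.1]

end

section
variable {K : Type} [Field K] [NumberField K]

/-- **The governing field.** -/
theorem exists_M {E : Finset (MRep (GK K) × ℝ)} (hE : ∀ p ∈ E, IsArtin p.1.2) :
    ∃ M : IntermediateField K (AlgebraicClosure K), FiniteDimensional K M ∧ IsGalois K M ∧
      ∀ (F : IntermediateField K (AlgebraicClosure K)), ∀ p ∈ E,
        invC p.1.2 F.fixingSubgroup = invC p.1.2 (F ⊓ M).fixingSubgroup := by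
  classical
  obtain ⟨U, hUn, hU, hρ⟩ := exists_common (κ := E) (n := fun k => k.1.1.1)
    (fun k => k.1.1.2) fun k => hE k.1 k.2
  set M : IntermediateField K (AlgebraicClosure K) := IntermediateField.fixedField U with hM
  have hclosed : ∀ H : Subgroup (GK K), IsOpen (H : Set (GK K)) →
      (IntermediateField.fixedField H).fixingSubgroup = H := fun H hH =>
    InfiniteGalois.fixingSubgroup_fixedField ⟨H, H.isClosed_of_isOpen hH⟩
  have h1 : M.fixingSubgroup = U := hclosed U hU
  have h2 : FiniteDimensional K M ∧ IsGalois K M := by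
    rw [← InfiniteGalois.isOpen_and_normal_iff_finite_and_isGalois, h1]
    exact ⟨hU, hUn⟩
  refine ⟨M, h2.1, h2.2, fun F p hp => ?_⟩
  apply le_antisymm
  · intro x hx
    -- the pointwise stabilizer
    let H : Subgroup (GK K) :=
      { carrier := {g | p.1.2 g x = x}
        one_mem' := by
          change p.1.2 1 x = x
          rw [map_one]; rfl
        mul_mem' := fun {g g'} hg hg' => by
          change p.1.2 (g * g') x = x
          rw [map_mul]
          exact (congrArg (p.1.2 g) hg').trans hg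
        inv_mem' := fun {g} hg => by
          change p.1.2 g⁻¹ x = x
          have h : p.1.2 g x = x := hg
          conv_lhs => rw [← h]
          have h3 : p.1.2 g⁻¹ * p.1.2 g = 1 := by rw [← map_mul, inv_mul_cancel, map_one]
          exact LinearMap.congr_fun h3 x }
    have hUH : U ≤ H := by
      intro u hu
      change p.1.2 u x = x
      rw [show p.1.2 u = 1 from hρ ⟨p, hp⟩ u hu]
      rfl
    have hFH : F.fixingSubgroup ≤ H := fun g hg => (mem_invC _ _ _).1 hx g hg
    have hHo : IsOpen (H : Set (GK K)) := Subgroup.isOpen_mono hUH hU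
    have h4 : IntermediateField.fixedField H ≤ F ⊓ M := by
      refine le_inf ?_ ?_
      · have h5 : IntermediateField.fixedField H ≤
            IntermediateField.fixedField F.fixingSubgroup := by
          intro z hz
          rw [IntermediateField.mem_fixedField_iff] at hz ⊢
          exact fun g hg => hz g (hFH hg)
        rwa [InfiniteGalois.fixedField_fixingSubgroup] at h5
      · intro z hz
        rw [IntermediateField.mem_fixedField_iff] at hz ⊢
        exact fun g hg => hz g (hUH hg)
    have h5 : (F ⊓ M).fixingSubgroup ≤ H := by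
      rw [← hclosed H hHo]
      exact IntermediateField.fixingSubgroup_le h4
    rw [mem_invC]
    exact fun g hg => h5 hg
  · intro x hx
    rw [mem_invC] at hx ⊢
    exact fun g hg => hx g (IntermediateField.fixingSubgroup_le inf_le_left hg)

end

end Pool.Agent.W353.AT
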