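import Pool.Agent.W353.L1.Final

/-! Bessel's inequality for the sizes of Artin twists, with a general bounded coefficient function. -/

set_option autoImplicit false

namespace Pool.Agent.W353.AT

open Complex Filter Topology ComplexConjugate Pool.Agent.H341R2 NumberField IsDedekindDomain
  Pool.Agent.W401.Cheb Pool.Agent.W540.BE Polynomial Pool.Agent.W353.L1

section
variable {F : Type} [Field F] [NumberField F]

/-- finite sums of functions with mean values -/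
theorem Has.sum {κ : Type*} (K : Finset κ) {φ : κ → HeightOneSpectrum (𝓞 F) → ℝ} {m : κ → ℝ}
    (h : ∀ k ∈ K, Has (φ k) (m k)) : Has (fun v => ∑ k ∈ K, φ k v) (∑ k ∈ K, m k) := by
  classical
  induction K using Finset.induction_on with
  | empty =>
    refine ⟨⟨0, fun v => by simp⟩, ?_⟩
    simp only [Finset.sum_empty]
    have e : ∀ ε, EP (nm F) ε (fun _ => (0 : ℝ)) = 0 := by
      intro ε
      unfold EP
      simp
    simp only [e, zero_div]
    exact tendsto_const_nhds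
  | insert a s ha ih =>
    have h1 := (h a (Finset.mem_insert_self a s)).add
      (ih fun k hk => h k (Finset.mem_insert_of_mem hk))
    refine h1.congr (fun v => ?_) ?_
    · rw [Finset.sum_insert ha]
    · rw [Finset.sum_insert ha]

variable (U : Subgroup (GK F)) [U.Normal] (hU : IsOpen (U : Set (GK F))) [Finite (GK F ⧸ U)]
  {κ : Type*} (K : Finset κ) {n : κ → ℕ}
  (ρ : ∀ k, Representation ℂ (GK F) (Fin (n k) → ℂ)) (hρ : ∀ k, ∀ u ∈ U, ρ k u = 1)
  (τ : κ → ℝ) (σ : HeightOneSpectrum (𝓞 F) → GK F) (hσ : ∀ v, IsFrob v (σ v))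
  {T : HeightOneSpectrum (𝓞 F) → ℝ} {s : ℝ} (hs : 0 ≤ s) (hT : ∀ v, |T v| ≤ s)
  {x : κ → ℝ → ℝ} (hx : ∀ k ∈ K, Tendsto (fun ε : ℝ =>
    (EP (nm F) ε fun v => T v * RR (ρ k) (τ k) σ v) / lam ε - x k ε) (𝓝[>] 0) (𝓝 0))

include hρ hs hT hx in
/-- **Upper bounds for linear combinations.** -/
theorem comb_bound (c : κ → ℝ) {A : ℝ}
    (hA : ∀ η : ℝ, 0 < η → ∀ᶠ ε : ℝ in 𝓝[>] 0,
      (EP (nm F) ε fun v => |∑ k ∈ K, c k * RR (ρ k) (τ k) σ v|) / lam ε ≤ A + η)
    {η : ℝ} (hη : 0 < η) :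
    ∀ᶠ ε : ℝ in 𝓝[>] 0, |∑ k ∈ K, c k * x k ε| ≤ s * A + η := by
  classical
  have hN : NormSys (nm F) := normSys
  have hsum := tendsto_finsetSum K fun k hk => (hx k hk).const_mul (c k)
  simp only [mul_zero, Finset.sum_const_zero] at hsum
  have h1 := (Metric.tendsto_nhds.1 hsum) (η / 2) (by positivity)
  have h2 := hA (η / (2 * (s + 1))) (by positivity)
  filter_upwards [h1, h2, lam_tendsto.eventually_gt_atTop 0, self_mem_nhdsWithin]
    with ε h3 h4 h5 h6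
  have hε : (0 : ℝ) < ε := h6
  rw [Real.dist_eq, sub_zero] at h3
  have hRb : ∀ k ∈ K, ∀ v, |c k * RR (ρ k) (τ k) σ v| ≤ |c k| * n k := by
    intro k hk v
    rw [abs_mul]
    exact mul_le_mul_of_nonneg_left (abs_RR_le U (ρ k) (hρ k) _ _ _) (abs_nonneg _)
  have hbk : ∀ k ∈ K, ∀ v : HeightOneSpectrum (𝓞 F), |c k * (T v * RR (ρ k) (τ k) σ v)| ≤
      |c k| * (s * n k) := by
    intro k hk v
    rw [abs_mul, abs_mul]
    refine mul_le_mul_of_nonneg_left ?_ (abs_nonneg _)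
    exact mul_le_mul (hT v) (abs_RR_le U (ρ k) (hρ k) _ _ _) (abs_nonneg _) hs
  have hcomb : ∑ k ∈ K, c k * ((EP (nm F) ε fun v => T v * RR (ρ k) (τ k) σ v) / lam ε) =
      (EP (nm F) ε fun v => T v * ∑ k ∈ K, c k * RR (ρ k) (τ k) σ v) / lam ε := by
    have e1 : ∀ k ∈ K, c k * ((EP (nm F) ε fun v => T v * RR (ρ k) (τ k) σ v) / lam ε) =
        (EP (nm F) ε fun v => c k * (T v * RR (ρ k) (τ k) σ v)) / lam ε := by
      intro k _
      rw [EP_const_mul, mul_div_assoc]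
    rw [Finset.sum_congr rfl e1, ← Finset.sum_div, ← EP_sum hN hε K
      (fun k v => c k * (T v * RR (ρ k) (τ k) σ v)) (fun k => |c k| * (s * n k)) hbk]
    congr 2
    funext v
    rw [Finset.mul_sum]
    refine Finset.sum_congr rfl fun k _ => ?_
    ring
  have hWb : ∀ v, |∑ k ∈ K, c k * RR (ρ k) (τ k) σ v| ≤ ∑ k ∈ K, |c k| * n k := fun v =>
    (Finset.abs_sum_le_sum_abs _ _).trans (Finset.sum_le_sum fun k hk => hRb k hk v)
  have hle : |EP (nm F) ε fun v => T v * ∑ k ∈ K, c k * RR (ρ k) (τ k) σ v| ≤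
      s * EP (nm F) ε fun v => |∑ k ∈ K, c k * RR (ρ k) (τ k) σ v| := by
    rw [← EP_const_mul]
    refine EP_abs_le (B := s * ∑ k ∈ K, |c k| * n k) (fun v => ?_) (fun v => ?_) hε
    · rw [abs_mul, abs_abs, abs_of_nonneg hs]
      exact mul_le_mul_of_nonneg_left (hWb v) hs
    · rw [abs_mul]
      exact mul_le_mul_of_nonneg_right (hT v) (abs_nonneg _)
  have e3 : ∑ k ∈ K, c k * x k ε =
      (∑ k ∈ K, c k * ((EP (nm F) ε fun v => T v * RR (ρ k) (τ k) σ v) / lam ε)) -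
      ∑ k ∈ K, c k * ((EP (nm F) ε fun v => T v * RR (ρ k) (τ k) σ v) / lam ε - x k ε) := by
    rw [← Finset.sum_sub_distrib]
    refine Finset.sum_congr rfl fun k _ => ?_
    ring
  rw [e3, hcomb]
  refine (abs_sub _ _).trans ?_
  have h7 : |(EP (nm F) ε fun v => T v * ∑ k ∈ K, c k * RR (ρ k) (τ k) σ v) / lam ε| ≤
      s * ((EP (nm F) ε fun v => |∑ k ∈ K, c k * RR (ρ k) (τ k) σ v|) / lam ε) := by
    rw [abs_div, abs_of_pos h5, ← mul_div_assoc]
    exact div_le_div_of_nonneg_right hle h5.le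
  have h8 : s * ((EP (nm F) ε fun v => |∑ k ∈ K, c k * RR (ρ k) (τ k) σ v|) / lam ε) ≤
      s * (A + η / (2 * (s + 1))) := mul_le_mul_of_nonneg_left h4 hs
  have h9 : s * (η / (2 * (s + 1))) ≤ η / 2 := by
    rw [mul_div_assoc', div_le_div_iff₀ (by positivity) (by norm_num)]
    nlinarith
  have h10 : s * (A + η / (2 * (s + 1))) = s * A + s * (η / (2 * (s + 1))) := by ring
  linarith

include hU hρ hσ in
/-- **The mean value of the absolute value is at most the `ℓ²`-norm.** -/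
theorem mean_le (hirr : ∀ k ∈ K, (ρ k).IsIrreducible)
    (hne : ∀ k ∈ K, ∀ l ∈ K, k ≠ l → τ k = τ l → IsEmpty ((ρ k).Equiv (ρ l))) (c : κ → ℝ)
    {η : ℝ} (hη : 0 < η) : ∀ᶠ ε : ℝ in 𝓝[>] 0,
      (EP (nm F) ε fun v => |∑ k ∈ K, c k * RR (ρ k) (τ k) σ v|) / lam ε ≤
        Real.sqrt (∑ k ∈ K, c k ^ 2) + η := by
  classical
  set S : ℝ := ∑ k ∈ K, c k ^ 2 with hS
  have hS0 : 0 ≤ S := Finset.sum_nonneg fun k _ => sq_nonneg _
  set W : HeightOneSpectrum (𝓞 F) → ℝ := fun v => ∑ k ∈ K, c k * RR (ρ k) (τ k) σ v with hW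
  set g : HeightOneSpectrum (𝓞 F) → ℂ := fun v => ∑ k ∈ K, (c k : ℂ) *
    ((chF U ρ hρ k).f (QuotientGroup.mk (σ v)) * zz (τ k) v) with hg
  have hWg : ∀ v, W v = (g v).re := by
    intro v
    rw [hW, hg]
    simp only
    rw [Complex.re_sum]
    refine Finset.sum_congr rfl fun k _ => ?_
    rw [Complex.re_ofReal_mul]
    rfl
  have hgg : ∀ v, ‖g v‖ ^ 2 = ∑ k ∈ K, ∑ l ∈ K, c k * c l *
      ((chF U ρ hρ k).mul (chF U ρ hρ l).star).R (τ k - τ l) σ v := by
    intro v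
    have h1 : (‖g v‖ ^ 2 : ℝ) = (g v * conj (g v)).re := by
      rw [Complex.mul_conj, Complex.normSq_eq_norm_sq, Complex.ofReal_re]
    rw [h1, hg]
    simp only
    rw [map_sum, Finset.sum_mul_sum, Complex.re_sum]
    refine Finset.sum_congr rfl fun k _ => ?_
    rw [Complex.re_sum]
    refine Finset.sum_congr rfl fun l _ => ?_
    have h2 : (c k : ℂ) * ((chF U ρ hρ k).f (QuotientGroup.mk (σ v)) * zz (τ k) v) *
        conj ((c l : ℂ) * ((chF U ρ hρ l).f (QuotientGroup.mk (σ v)) * zz (τ l) v)) =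
        ((c k * c l : ℝ) : ℂ) * (((chF U ρ hρ k).f (QuotientGroup.mk (σ v)) *
          conj ((chF U ρ hρ l).f (QuotientGroup.mk (σ v)))) * zz (τ k - τ l) v) := by
      rw [map_mul, map_mul, Complex.conj_ofReal, conj_zz, sub_eq_add_neg, zz_add]
      push_cast
      ring
    rw [h2, Complex.re_ofReal_mul]
    rfl
  have hmean : Has (fun v => ‖g v‖ ^ 2) S := by
    have h1 : ∀ k ∈ K, ∀ l ∈ K, Has (fun v => c k * c l *
        ((chF U ρ hρ k).mul (chF U ρ hρ l).star).R (τ k - τ l) σ v)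
        (if k = l then c k ^ 2 else 0) := by
      intro k hk l hl
      have h2 := ((chF U ρ hρ k).mul (chF U ρ hρ l).star).has hU σ hσ (τ k - τ l)
      have h3 := h2.const_mul (c k * c l)
      refine h3.congr (fun v => rfl) ?_
      by_cases hkl : k = l
      · subst hkl
        rw [sub_self, if_pos rfl, if_pos rfl]
        have h4 := avC_ortho U ρ hρ (hirr k hk) (hirr k hk)
        rw [if_pos ⟨Representation.Equiv.refl _⟩] at h4
        have h5 : avC U ((chF U ρ hρ k).mul (chF U ρ hρ k).star).f = 1 := h4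
        rw [h5, Complex.one_re]
        ring
      · rw [if_neg hkl]
        by_cases ht : τ k - τ l = 0
        · rw [if_pos ht]
          have h4 := avC_ortho U ρ hρ (hirr k hk) (hirr l hl)
          rw [if_neg (by
            rw [not_nonempty_iff]
            exact hne k hk l hl hkl (sub_eq_zero.1 ht))] at h4
          have h5 : avC U ((chF U ρ hρ k).mul (chF U ρ hρ l).star).f = 0 := h4
          rw [h5, Complex.zero_re, mul_zero]
        · rw [if_neg ht, mul_zero]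
    have h6 := Has.sum K fun k hk => Has.sum K fun l hl => h1 k hk l hl
    refine h6.congr (fun v => (hgg v).symm) ?_
    rw [hS]
    refine Finset.sum_congr rfl fun k hk => ?_
    rw [Finset.sum_ite_eq, if_pos hk]
  obtain ⟨⟨Bg, hBg⟩, hlim⟩ := hmean
  have hWn : ∀ v, |W v| ≤ ‖g v‖ := fun v => by
    rw [hWg]
    exact Complex.abs_re_le_norm _
  rcases hS0.eq_or_lt with h0 | h0
  · -- all coefficients are zero
    have hc : ∀ k ∈ K, c k = 0 := by
      intro k hk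
      have := (Finset.sum_eq_zero_iff_of_nonneg fun k _ => sq_nonneg (c k)).1 h0.symm k hk
      exact pow_eq_zero_iff (two_ne_zero) |>.1 this
    filter_upwards with ε
    have h1 : (fun v => |∑ k ∈ K, c k * RR (ρ k) (τ k) σ v|) = fun _ => (0 : ℝ) := by
      funext v
      rw [Finset.sum_eq_zero fun k hk => by rw [hc k hk, zero_mul], abs_zero]
    rw [h1]
    have e : EP (nm F) ε (fun _ => (0 : ℝ)) = 0 := by
      unfold EP
      simp
    rw [e, zero_div]
    positivity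
  · set a : ℝ := Real.sqrt S with ha
    have ha0 : 0 < a := Real.sqrt_pos.2 h0
    have haa : a * a = S := Real.mul_self_sqrt hS0
    have hmaj : Has (fun v => (1 / (2 * a)) * ‖g v‖ ^ 2 + a / 2 * 1)
        ((1 / (2 * a)) * S + a / 2 * 1) :=
      (Has.const_mul ⟨⟨Bg, hBg⟩, hlim⟩ (1 / (2 * a))).add (has_one.const_mul (a / 2))
    have hval : (1 / (2 * a)) * S + a / 2 * 1 = a := by
      rw [← haa]
      field_simp
      ring
    rw [hval] at hmaj
    obtain ⟨⟨Bm, hBm⟩, hlm⟩ := hmaj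
    have hpt : ∀ v, |W v| ≤ (1 / (2 * a)) * ‖g v‖ ^ 2 + a / 2 * 1 := by
      intro v
      refine (hWn v).trans ?_
      have h1 : 0 ≤ (‖g v‖ - a) ^ 2 := sq_nonneg _
      have h2 : (1 / (2 * a)) * ‖g v‖ ^ 2 + a / 2 * 1 - ‖g v‖ =
          (1 / (2 * a)) * (‖g v‖ - a) ^ 2 := by
        field_simp
        ring
      have h3 : 0 ≤ (1 / (2 * a)) * (‖g v‖ - a) ^ 2 := by positivity
      linarith
    filter_upwards [hlm.eventually_lt_const (lt_add_of_pos_right a hη),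
      lam_tendsto.eventually_gt_atTop 0, self_mem_nhdsWithin] with ε h1 h2 h3
    refine le_trans ?_ h1.le
    refine div_le_div_of_nonneg_right ?_ h2.le
    have hε : (0 : ℝ) < ε := h3
    refine EP_mono (B := Bm) (B' := Bm) (fun v => ?_) hBm (fun v => hpt v) hε
    rw [abs_abs]
    exact (hpt v).trans ((le_abs_self _).trans (hBm v))

include hU hρ hσ hs hT hx in
/-- **Bessel's inequality for the sizes.** -/
theorem bessel (hirr : ∀ k ∈ K, (ρ k).IsIrreducible)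
    (hne : ∀ k ∈ K, ∀ l ∈ K, k ≠ l → τ k = τ l → IsEmpty ((ρ k).Equiv (ρ l)))
    {η : ℝ} (hη : 0 < η) : ∀ᶠ ε : ℝ in 𝓝[>] 0, ∑ k ∈ K, (x k ε) ^ 2 ≤ s ^ 2 + η := by
  classical
  have hN : NormSys (nm F) := normSys
  by_contra hcon
  rw [not_eventually] at hcon
  have hbd : ∀ k ∈ K, ∀ᶠ ε : ℝ in 𝓝[>] 0, |x k ε| ≤ s + 1 := by
    intro k hk
    have h1 := comb_bound U K ρ hρ τ σ hs hT hx (fun l => if l = k then 1 else 0)
      (A := 1) (fun η' hη' => by
        have h2 := mean_le U hU K ρ hρ τ σ hσ hirr hne (fun l => if l = k then (1 : ℝ) else 0) hη'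
        refine h2.mono fun ε hε => hε.trans ?_
        have h3 : ∑ l ∈ K, (if l = k then (1 : ℝ) else 0) ^ 2 = 1 := by
          rw [Finset.sum_eq_single k]
          · simp
          · intro l _ hl
            simp [hl]
          · intro h
            exact absurd hk h
        rw [h3, Real.sqrt_one]) one_pos
    refine h1.mono fun ε hε => ?_
    have h4 : ∑ l ∈ K, (if l = k then (1 : ℝ) else 0) * x l ε = x k ε := by
      rw [Finset.sum_eq_single k]
      · simp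
      · intro l _ hl
        simp [hl]
      · intro h
        exact absurd hk h
    rw [h4, mul_one] at hε
    exact hε
  obtain ⟨𝒰, h𝒰, hU2⟩ : ∃ 𝒰 : Ultrafilter ℝ, (𝒰 : Filter ℝ) ≤ 𝓝[>] 0 ∧
      ∀ᶠ ε in (𝒰 : Filter ℝ), ¬ ∑ k ∈ K, (x k ε) ^ 2 ≤ s ^ 2 + η := by
    have hne' : (𝓝[>] (0 : ℝ) ⊓ 𝓟 {ε | ¬ ∑ k ∈ K, (x k ε) ^ 2 ≤ s ^ 2 + η}).NeBot :=
      frequently_iff_neBot.1 hcon
    refine ⟨Ultrafilter.of (𝓝[>] (0 : ℝ) ⊓ 𝓟 {ε | ¬ ∑ k ∈ K, (x k ε) ^ 2 ≤ s ^ 2 + η}),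
      (Ultrafilter.of_le _).trans inf_le_left, ?_⟩
    have h1 : ((Ultrafilter.of (𝓝[>] (0 : ℝ) ⊓
        𝓟 {ε | ¬ ∑ k ∈ K, (x k ε) ^ 2 ≤ s ^ 2 + η}) : Ultrafilter ℝ) : Filter ℝ) ≤
        𝓟 {ε | ¬ ∑ k ∈ K, (x k ε) ^ 2 ≤ s ^ 2 + η} := (Ultrafilter.of_le _).trans inf_le_right
    exact h1 (mem_principal_self _)
  have hex : ∀ k : κ, ∃ y : ℝ, k ∈ K → Tendsto (x k) 𝒰 (𝓝 y) := by
    intro k
    by_cases hk : k ∈ K
    · have hcomp : IsCompact (Set.Icc (-(s + 1)) (s + 1)) := isCompact_Icc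
      have hmem : (𝒰.map (x k) : Filter ℝ) ≤ 𝓟 (Set.Icc (-(s + 1)) (s + 1)) := by
        rw [le_principal_iff]
        have := (hbd k hk).filter_mono h𝒰
        exact this.mono fun ε hε => abs_le.1 hε
      obtain ⟨y, -, hy⟩ := hcomp.ultrafilter_le_nhds (𝒰.map (x k)) hmem
      exact ⟨y, fun _ => hy⟩
    · exact ⟨0, fun h => absurd h hk⟩
  choose y hy using hex
  have hlim : Tendsto (fun ε => ∑ k ∈ K, (x k ε) ^ 2) 𝒰 (𝓝 (∑ k ∈ K, (y k) ^ 2)) :=
    tendsto_finsetSum K fun k hk => (hy k hk).pow 2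
  have hge : s ^ 2 + η ≤ ∑ k ∈ K, (y k) ^ 2 :=
    ge_of_tendsto hlim (hU2.mono fun ε hε => (not_le.1 hε).le)
  have hS0 : 0 ≤ ∑ k ∈ K, (y k) ^ 2 := Finset.sum_nonneg fun k _ => sq_nonneg _
  have hle : ∑ k ∈ K, (y k) ^ 2 ≤ s * Real.sqrt (∑ k ∈ K, (y k) ^ 2) := by
    refine le_of_forall_pos_le_add fun η' hη' => ?_
    have h1 := comb_bound U K ρ hρ τ σ hs hT hx y
      (fun η'' hη'' => mean_le U hU K ρ hρ τ σ hσ hirr hne y hη'') hη'
    have h2 : Tendsto (fun ε => |∑ k ∈ K, y k * x k ε|) 𝒰 (𝓝 |∑ k ∈ K, y k * y k|) :=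
      (tendsto_finsetSum K fun k hk => (hy k hk).const_mul (y k)).abs
    have h3 := le_of_tendsto h2 (h1.filter_mono h𝒰)
    refine le_trans (le_of_eq ?_) h3
    have h4 : ∑ k ∈ K, y k * y k = ∑ k ∈ K, (y k) ^ 2 :=
      Finset.sum_congr rfl fun k _ => by ring
    rw [h4, abs_of_nonneg hS0]
  set S := ∑ k ∈ K, (y k) ^ 2 with hS
  have h5 : Real.sqrt S * Real.sqrt S = S := Real.mul_self_sqrt hS0
  have h6 : Real.sqrt S ≤ s := by
    by_contra h
    push Not at h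
    have h7 : 0 < Real.sqrt S := lt_of_le_of_lt hs h
    nlinarith
  nlinarith [Real.sqrt_nonneg S]

include hU hρ hσ hs hT hx in
/-- **Bessel's inequality for the limits.** -/
theorem bessel_lim (hirr : ∀ k ∈ K, (ρ k).IsIrreducible)
    (hne : ∀ k ∈ K, ∀ l ∈ K, k ≠ l → τ k = τ l → IsEmpty ((ρ k).Equiv (ρ l)))
    {y : κ → ℝ} (hy : ∀ k ∈ K, Tendsto (x k) (𝓝[>] 0) (𝓝 (y k))) :
    ∑ k ∈ K, (y k) ^ 2 ≤ s ^ 2 := by
  refine le_of_forall_pos_le_add fun η hη => ?_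
  exact le_of_tendsto (tendsto_finsetSum K fun k hk => (hy k hk).pow 2)
    (bessel U hU K ρ hρ τ σ hσ hs hT hx hirr hne hη)

end

end Pool.Agent.W353.AT
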