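import Pool.Agent.W353.AT.Bessel
import Mathlib.RepresentationTheory.Maschke
import Mathlib.RepresentationTheory.Semisimple

/-! Decomposition of characters into irreducible characters. -/

set_option autoImplicit false

namespace Pool.Agent.W353.AT

open Representation

/-- a matrix representation -/
abbrev MRep (G : Type) [Group G] : Type := Σ n : ℕ, Representation ℂ G (Fin n → ℂ)

section
variable {Q : Type} [Group Q]

/-- transport of a representation to coordinates -/
noncomputable def coord {V : Type} [AddCommGroup V] [Module ℂ V] {r : ℕ}
    (e : V ≃ₗ[ℂ] (Fin r → ℂ)) (ρ : Representation ℂ Q V) : Representation ℂ Q (Fin r → ℂ) where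
  toFun g := e.conj (ρ g)
  map_one' := by rw [map_one]; exact LinearEquiv.conj_id e
  map_mul' g h := by
    rw [map_mul]
    exact LinearEquiv.conj_comp e (ρ h) (ρ g)

theorem coord_char {V : Type} [AddCommGroup V] [Module ℂ V] {r : ℕ}
    (e : V ≃ₗ[ℂ] (Fin r → ℂ)) (ρ : Representation ℂ Q V) (g : Q) :
    (coord e ρ).character g = ρ.character g :=
  LinearMap.trace_conj' (ρ g) e

theorem coord_irr {V : Type} [AddCommGroup V] [Module ℂ V] {r : ℕ}
    (e : V ≃ₗ[ℂ] (Fin r → ℂ)) (ρ : Representation ℂ Q V) (h : ρ.IsIrreducible) :
    (coord e ρ).IsIrreducible := by
  have happ : ∀ g x, (coord e ρ) g (e x) = e (ρ g x) := by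
    intro g x
    change e (ρ g (e.symm (e x))) = e (ρ g x)
    rw [e.symm_apply_apply]
  let f : Subrepresentation ρ ≃o Subrepresentation (coord e ρ) :=
    { toFun := fun S => ⟨S.toSubmodule.map (e : V →ₗ[ℂ] (Fin r → ℂ)), by
        rintro g _ ⟨x, hx, rfl⟩
        exact ⟨ρ g x, S.apply_mem_toSubmodule g hx, (happ g x).symm⟩⟩
      invFun := fun S => ⟨S.toSubmodule.comap (e : V →ₗ[ℂ] (Fin r → ℂ)), by
        intro g x hx
        rw [Submodule.mem_comap] at hx ⊢
        have := S.apply_mem_toSubmodule g hx
        exact (happ g x) ▸ this⟩
      left_inv := fun S => by
        apply Subrepresentation.toSubmodule_injective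
        exact Submodule.comap_map_eq_of_injective e.injective _
      right_inv := fun S => by
        apply Subrepresentation.toSubmodule_injective
        exact Submodule.map_comap_eq_of_surjective e.surjective _
      map_rel_iff' := by
        intro S S'
        exact Submodule.map_le_map_iff_of_injective e.injective _ _ }
  exact (OrderIso.isSimpleOrder_iff f).1 h

/-- **Every character of a finite group is a sum of irreducible characters.** -/
theorem decomp [Finite Q] : ∀ (r : ℕ) (V : Type) [AddCommGroup V] [Module ℂ V]
    [FiniteDimensional ℂ V] (ρ : Representation ℂ Q V), Module.finrank ℂ V = r →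
    ∃ L : List (MRep Q), (∀ x ∈ L, x.2.IsIrreducible) ∧
      ∀ g, ρ.character g = (L.map fun x => x.2.character g).sum := by
  classical
  intro r
  induction r using Nat.strong_induction_on with
  | _ r ih =>
    intro V _ _ _ ρ hr
    by_cases hirr : ρ.IsIrreducible
    · refine ⟨[⟨r, coord (Module.finBasisOfFinrankEq ℂ V hr).equivFun ρ⟩], ?_, ?_⟩
      · intro x hx
        rw [List.mem_singleton] at hx
        subst hx
        exact coord_irr _ ρ hirr
      · intro g
        rw [List.map_singleton, List.sum_singleton]
        exact (coord_char _ ρ g).symm
    · by_cases hr0 : r = 0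
      · refine ⟨[], fun x hx => absurd hx List.not_mem_nil, fun g => ?_⟩
        have hsub : Subsingleton V := Module.finrank_zero_iff.1 (hr.trans hr0)
        have h0 : ρ g = 0 := LinearMap.ext fun x => Subsingleton.elim _ _
        rw [List.map_nil, List.sum_nil]
        unfold Representation.character
        rw [h0, map_zero]
      · -- a proper subrepresentation
        have hnt : Nontrivial V := Module.nontrivial_of_finrank_pos (R := ℂ) (by omega)
        have hnt' : Nontrivial (Subrepresentation ρ) := by
          refine ⟨⊥, ⊤, fun h => ?_⟩
          have h1 : (⊥ : Submodule ℂ V) = ⊤ := congrArg Subrepresentation.toSubmodule h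
          exact bot_ne_top h1
        obtain ⟨S, hS1, hS2⟩ : ∃ S : Subrepresentation ρ, S ≠ ⊥ ∧ S ≠ ⊤ := by
          by_contra hcon
          push Not at hcon
          refine hirr ⟨fun S => ?_⟩
          by_cases h : S = ⊥
          · exact Or.inl h
          · exact Or.inr (hcon S h)
        obtain ⟨S', hSS⟩ := exists_isCompl S
        have hc : IsCompl S.toSubmodule S'.toSubmodule := by
          constructor
          · rw [disjoint_iff]
            exact congrArg Subrepresentation.toSubmodule (disjoint_iff.1 hSS.1)
          · rw [codisjoint_iff]
            exact congrArg Subrepresentation.toSubmodule (codisjoint_iff.1 hSS.2)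
        have hsum := Submodule.finrank_add_eq_of_isCompl hc
        have hS0 : 0 < Module.finrank ℂ S.toSubmodule := by
          rw [Module.finrank_pos_iff]
          rw [Submodule.nontrivial_iff_ne_bot]
          intro h
          exact hS1 (Subrepresentation.toSubmodule_injective h)
        have hS0' : 0 < Module.finrank ℂ S'.toSubmodule := by
          rw [Module.finrank_pos_iff]
          rw [Submodule.nontrivial_iff_ne_bot]
          intro h
          apply hS2
          apply Subrepresentation.toSubmodule_injective
          have h2 := hc.2
          rw [h, codisjoint_bot] at h2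
          exact h2
        obtain ⟨L, hL1, hL2⟩ := ih _ (by omega) S.toSubmodule S.toRepresentation rfl
        obtain ⟨L', hL1', hL2'⟩ := ih _ (by omega) S'.toSubmodule S'.toRepresentation rfl
        refine ⟨L ++ L', ?_, ?_⟩
        · intro x hx
          rcases List.mem_append.1 hx with h | h
          · exact hL1 x h
          · exact hL1' x h
        · intro g
          rw [List.map_append, List.sum_append, ← hL2, ← hL2']
          set e := Submodule.prodEquivOfIsCompl S.toSubmodule S'.toSubmodule hc with he
          have h1 : ρ g = e.conj ((S.toRepresentation g).prodMap (S'.toRepresentation g)) := by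
            refine LinearMap.ext fun x => ?_
            obtain ⟨y, rfl⟩ := e.surjective x
            change ρ g (e y) = e (((S.toRepresentation g).prodMap (S'.toRepresentation g))
              (e.symm (e y)))
            rw [e.symm_apply_apply, he, Submodule.coe_prodEquivOfIsCompl',
              Submodule.coe_prodEquivOfIsCompl', map_add]
            rfl
          unfold Representation.character
          rw [h1, LinearMap.trace_conj', LinearMap.trace_prodMap']

end

end Pool.Agent.W353.AT
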