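import Pool.Agent.W353.EH.Defs

/-!
# The edge line of the L-functions of Artin twists: definitions

`X` is a smooth projective variety over a number field `K`, `i` an integer, and `ρ` a complex
representation of the absolute Galois group `G` of `K` that is trivial on an open subgroup (an Artin
representation); `L(H^i(X) ⊗ ρ, s)` is an Euler product over the primes of `K`.  For an abelian variety
`X = A` and `i = 1` it is `L(A/K, ρ, s)`.
-/

set_option autoImplicit false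

namespace Pool.Agent.W353.AT

open NumberField IsDedekindDomain Filter Topology Polynomial
open Pool.Agent.W353.EF (IsFrobenius LFun)
open Pool.Agent.W353.EH (edgePoint size HasOrder)

section
variable {K : Type} [Field K]

/-- `σ` is an arithmetic Frobenius element at the prime `v` of `K`: there is a maximal ideal `Q` above
`v` of the ring of all algebraic integers with `σ x ≡ x ^ q_v` modulo `Q` for all `x`. -/
def IsFrobeniusElement [NumberField K] (v : HeightOneSpectrum (𝓞 K))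
    (σ : Gal(AlgebraicClosure K/K)) : Prop :=
  ∃ Q : Ideal (𝓞 (AlgebraicClosure K)), Q.IsMaximal ∧
    Q.comap (algebraMap (𝓞 K) (𝓞 (AlgebraicClosure K))) = v.asIdeal ∧
    ∀ x : 𝓞 (AlgebraicClosure K), σ • x - x ^ Ideal.absNorm v.asIdeal ∈ Q

/-- An Artin representation: a complex representation of the absolute Galois group that is trivial on
an open subgroup. -/
def IsArtin {n : ℕ} (ρ : Representation ℂ Gal(AlgebraicClosure K/K) (Fin n → ℂ)) : Prop :=
  ∃ U : Subgroup Gal(AlgebraicClosure K/K), IsOpen (U : Set Gal(AlgebraicClosure K/K)) ∧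
    ∀ u ∈ U, ρ u = 1

/-- The polynomials `B v` are the Euler factors of `L(H^i(X) ⊗ ρ, s)`: for almost all primes `v` of `K`,
`B_v(z) = ∏ det(1 - α_j z ρ(σ⁻¹))` for the Frobenius eigenvalues `α_1, …, α_N` on `H^i(X)` and the
geometric Frobenius `σ⁻¹`; at the other primes `B v` is an arbitrary polynomial, and no factor
`1 / B_v(q_v^{-s})` has a pole at `s = i/2 + 1 + iτ`. -/
def IsTwistedSystem [NumberField K] {l : ℕ} (X : Set (MvPolynomial (Fin l) (𝓞 K))) (d i N : ℕ)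
    {n : ℕ} (ρ : Representation ℂ Gal(AlgebraicClosure K/K) (Fin n → ℂ)) (τ : ℝ)
    (B : HeightOneSpectrum (𝓞 K) → ℂ[X]) : Prop :=
  (∀ᶠ v in cofinite, ∃ α : Fin N → ℂ, IsFrobenius X d i v α ∧ ∀ σ, IsFrobeniusElement v σ →
    ∀ z : ℂ, (B v).eval z = ∏ j, LinearMap.det (1 - (α j * z) • ρ σ⁻¹)) ∧
  ∀ v, (B v).eval ((Ideal.absNorm v.asIdeal : ℂ) ^ (-edgePoint i τ)) ≠ 0

/-- `L(H^i(X) ⊗ ρ, s)` has a meromorphic continuation to a neighbourhood of `i/2 + 1 + iτ`, of order `m`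
at this point (`m < 0` for a pole, `m > 0` for a zero). -/
def TwistOrder [NumberField K] {l : ℕ} (X : Set (MvPolynomial (Fin l) (𝓞 K))) (d i N : ℕ)
    {n : ℕ} (ρ : Representation ℂ Gal(AlgebraicClosure K/K) (Fin n → ℂ)) (τ : ℝ) (m : ℤ) : Prop :=
  ∃ B : HeightOneSpectrum (𝓞 K) → ℂ[X], IsTwistedSystem X d i N ρ τ B ∧ HasOrder i τ B m

end

/-- Let `(ρ_k, τ_k)`, `k` in a finite set, be pairs of an irreducible Artin representation and a real
number, with `ρ_k` not isomorphic to `ρ_l` if `k ≠ l` and `τ_k = τ_l`; `s_k = i/2 + 1 + iτ_k` and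
`x_k(ε) = log |L(H^i(X) ⊗ ρ_k, s_k + ε)| / log(1/ε)`.  Then `L(H^i(X) ⊗ ρ_k, s_k + ε) ≠ 0` for small
`ε > 0`, and for every `η > 0` and all small `ε > 0`, `∑ x_k(ε)² ≤ N² + η` (no continuation is assumed
here).  If there are meromorphic continuations, then `∑ m_k² ≤ N²` for their orders `m_k` at `s_k`. -/
def EdgeBessel {K : Type} [Field K] [NumberField K] {l : ℕ}
    (X : Set (MvPolynomial (Fin l) (𝓞 K))) (d i N : ℕ) : Prop :=
  ∀ (κ : Type) [Fintype κ] (n : κ → ℕ)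
    (ρ : ∀ k, Representation ℂ Gal(AlgebraicClosure K/K) (Fin (n k) → ℂ)) (τ : κ → ℝ),
    (∀ k, IsArtin (ρ k)) → (∀ k, (ρ k).IsIrreducible) →
    (∀ k l, k ≠ l → τ k = τ l → IsEmpty ((ρ k).Equiv (ρ l))) →
    (∀ B : κ → HeightOneSpectrum (𝓞 K) → ℂ[X],
      (∀ k, IsTwistedSystem X d i N (ρ k) (τ k) (B k)) →
      (∀ k, ∀ᶠ ε : ℝ in 𝓝[>] 0, LFun (B k) (edgePoint i (τ k) + ε) ≠ 0) ∧
      ∀ η : ℝ, 0 < η → ∀ᶠ ε : ℝ in 𝓝[>] 0,
        ∑ k, (size i (τ k) (B k) ε) ^ 2 ≤ (N : ℝ) ^ 2 + η) ∧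
    ∀ m : κ → ℤ, (∀ k, TwistOrder X d i N (ρ k) (τ k) (m k)) → ∑ k, m k ^ 2 ≤ (N : ℤ) ^ 2

open Classical in
/-- For a function `f` on the group `G` and a normal subgroup `U` of finite index (`f` constant on the
cosets of `U`): the mean value over the finite group `G / U` of `|Re f|` if `τ = 0`, and `2/π` times
the mean value of `|f|` if `τ ≠ 0`. -/
noncomputable def meanNorm {G : Type} [Group G] (U : Subgroup G) (τ : ℝ) (f : G → ℂ) : ℝ :=
  (if τ = 0 then ∑ᶠ q : G ⧸ U, |(f q.out).re| else 2 / Real.pi * ∑ᶠ q : G ⧸ U, ‖f q.out‖) /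
    Nat.card (G ⧸ U)

/-- Let `τ` be real and `s_τ = i/2 + 1 + iτ`; let `ρ_k`, `k` in a finite set, be Artin representations
that are trivial on the open normal subgroup `U`, `χ_k` their characters and
`x_k(ε) = log |L(H^i(X) ⊗ ρ_k, s_τ + ε)| / log(1/ε)`.
* For real `c_k`, every `η > 0` and all small `ε > 0`, `|∑ c_k x_k(ε)| ≤ N ‖∑ c_k χ_k‖ + η` (no
continuation is assumed here).
* If there are meromorphic continuations with the orders `m_k` at `s_τ`, then
`|∑ c_k m_k| ≤ N ‖∑ c_k χ_k‖`.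
* If, moreover, the `ρ_k` are all irreducible representations of `G / U` (that is, irreducible,
inequivalent, with `∑ n_k² = [G : U]`), then `θ = ∑ m_k χ_k` satisfies `|θ(g)| ≤ N` for all `g ∈ G`, and
`|θ(g)| ≤ 2N/π` if `τ ≠ 0`. -/
def EdgeSupNorm {K : Type} [Field K] [NumberField K] {l : ℕ}
    (X : Set (MvPolynomial (Fin l) (𝓞 K))) (d i N : ℕ) : Prop :=
  ∀ (U : Subgroup Gal(AlgebraicClosure K/K)) [U.Normal],
    IsOpen (U : Set Gal(AlgebraicClosure K/K)) → ∀ (κ : Type) [Fintype κ] (n : κ → ℕ)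
    (ρ : ∀ k, Representation ℂ Gal(AlgebraicClosure K/K) (Fin (n k) → ℂ)) (τ : ℝ),
    (∀ k, ∀ u ∈ U, ρ k u = 1) →
    (∀ B : κ → HeightOneSpectrum (𝓞 K) → ℂ[X],
      (∀ k, IsTwistedSystem X d i N (ρ k) τ (B k)) → ∀ c : κ → ℝ, ∀ η : ℝ, 0 < η →
      ∀ᶠ ε : ℝ in 𝓝[>] 0, |∑ k, c k * size i τ (B k) ε| ≤
        N * meanNorm U τ (fun g => ∑ k, (c k : ℂ) * (ρ k).character g) + η) ∧
    ∀ m : κ → ℤ, (∀ k, TwistOrder X d i N (ρ k) τ (m k)) →
      (∀ c : κ → ℝ, |∑ k, c k * m k| ≤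
        N * meanNorm U τ (fun g => ∑ k, (c k : ℂ) * (ρ k).character g)) ∧
      ((∀ k, (ρ k).IsIrreducible) → (∀ k l, k ≠ l → IsEmpty ((ρ k).Equiv (ρ l))) →
        ∑ k, n k ^ 2 = Nat.card (Gal(AlgebraicClosure K/K) ⧸ U) →
        ∀ g, ‖∑ k, (m k : ℂ) * (ρ k).character g‖ ≤ if τ = 0 then (N : ℝ) else 2 * N / Real.pi)

end Pool.Agent.W353.AT
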