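import Pool.Agent.W353.AT.Defs
import Pool.Agent.W353.TD.Defs

/-!
# Tate's conjecture on the pole over all number fields: definitions

`X` is a smooth projective variety over a number field `K`, of dimension `d`, and `m` an integer,
`0 ≤ m ≤ d`; `χ` is a complex representation of the absolute Galois group `G` of `K` that is trivial on
an open subgroup (an Artin representation).  `L(H^{2m}(X) ⊗ χ, s)` is an Euler product over the primes
of `K`, and `L(H^{2m}(X_F), s)` an Euler product over the primes of the number field `F ⊇ K`.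
-/

set_option autoImplicit false

namespace Pool.Agent.W353.AT

open NumberField IsDedekindDomain Filter Topology Polynomial
open Pool.Agent.W353.EF (LFun)
open Pool.Agent.W353.EH (edgePoint size)
open Pool.Agent.W353.TD (rank)
open scoped TensorProduct

/-- The representation on `ℂ ⊗_ℚ V`. -/
noncomputable def extendScalars {G V : Type} [Group G] [AddCommGroup V] [Module ℚ V]
    (ρ : Representation ℚ G V) : Representation ℂ G (ℂ ⊗[ℚ] V) where
  toFun g := (ρ g).baseChange ℂ
  map_one' := by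
    rw [map_one]
    exact LinearMap.baseChange_one (R := ℚ) (A := ℂ) (M := V)
  map_mul' g h := by
    rw [map_mul]
    exact LinearMap.baseChange_mul _ _

section
variable {K : Type} [Field K] {V : Type} [AddCommGroup V] [Module ℚ V]

/-- The dimension of the space of the elements of `(ℂ ⊗ V) ⊗ χ` fixed by the absolute Galois group
of `K`. -/
noncomputable def twistRank (ρ : Representation ℚ Gal(AlgebraicClosure K/K) V) {n : ℕ}
    (χ : Representation ℂ Gal(AlgebraicClosure K/K) (Fin n → ℂ)) : ℕ :=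
  Module.finrank ℂ (Representation.invariants ((extendScalars ρ).tprod χ))

/-- The dimension of the space of the vectors of the Artin representation `χ` fixed by the absolute
Galois group of `F`. -/
noncomputable def fixedDim {n : ℕ} (χ : Representation ℂ Gal(AlgebraicClosure K/K) (Fin n → ℂ))
    (F : IntermediateField K (AlgebraicClosure K)) : ℕ :=
  Module.finrank ℂ (Representation.invariants (χ.comp F.fixingSubgroup.subtype))

variable [NumberField K] {l : ℕ}

/-- `L(H^{2m}(X) ⊗ χ, s)` has the order `δ - twistRank ρ χ` at `s = m + 1`, in the sense that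
`log |L(m + 1 + ε)| / log(1/ε)` tends to `twistRank ρ χ - δ` as `ε → 0+`; this holds if there is a
meromorphic continuation to a neighbourhood of `m + 1` of this order.  Tate's conjecture predicts
`δ = 0` for `V = A^m(X) ⊗ ℚ`. -/
def TwistDefect (X : Set (MvPolynomial (Fin l) (𝓞 K))) (d m N : ℕ)
    (ρ : Representation ℚ Gal(AlgebraicClosure K/K) V) {n : ℕ}
    (χ : Representation ℂ Gal(AlgebraicClosure K/K) (Fin n → ℂ)) (δ : ℤ) : Prop :=
  ∃ B : HeightOneSpectrum (𝓞 K) → ℂ[X], IsTwistedSystem X d (2 * m) N χ 0 B ∧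
    Tendsto (size (2 * m) 0 B) (𝓝[>] 0) (𝓝 ((twistRank ρ χ : ℝ) - δ))

/-- Let `s = N - dim V`.
* For all finite families of pairwise inequivalent irreducible Artin representations `χ_k`, the
`L`-functions are different from zero at `m + 1 + ε` for small `ε > 0`, and for every `η > 0` and all
small `ε > 0` the sum of the squares of `log |L_k(m + 1 + ε)| / log(1/ε) - twistRank ρ χ_k` is at most
`s² + η` (no continuation is assumed here).
* Suppose that for every irreducible Artin representation `χ` of `K` the quotient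
`log |L(m + 1 + ε)| / log(1/ε)` for `L(H^{2m}(X) ⊗ χ, s)` has an integral limit.  Then there are
finitely many pairwise inequivalent irreducible Artin representations `χ_k`, with defects `δ_k ≠ 0`,
`∑ δ_k² ≤ s²`, such that all other irreducible Artin representations have the defect `0`.  There is a
finite Galois extension `M` of `K` such that, for all number fields `F ⊇ K` (of arbitrary degree), the
defect over `F` is `δ(F) = ∑ δ_k dim χ_k^{Gal(K̄/F)}`, and `δ(F) = δ(F ∩ M)`. -/
def TateOverAllFields (X : Set (MvPolynomial (Fin l) (𝓞 K))) (d m N : ℕ)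
    (ρ : Representation ℚ Gal(AlgebraicClosure K/K) V) : Prop :=
  (∀ (κ : Type) [Fintype κ] (n : κ → ℕ)
    (χ : ∀ k, Representation ℂ Gal(AlgebraicClosure K/K) (Fin (n k) → ℂ))
    (B : κ → HeightOneSpectrum (𝓞 K) → ℂ[X]), (∀ k, IsArtin (χ k)) →
    (∀ k, (χ k).IsIrreducible) → (∀ k k', k ≠ k' → IsEmpty ((χ k).Equiv (χ k'))) →
    (∀ k, IsTwistedSystem X d (2 * m) N (χ k) 0 (B k)) →
    (∀ k, ∀ᶠ ε : ℝ in 𝓝[>] 0, LFun (B k) (edgePoint (2 * m) 0 + ε) ≠ 0) ∧
    ∀ η : ℝ, 0 < η → ∀ᶠ ε : ℝ in 𝓝[>] 0,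
      ∑ k, (size (2 * m) 0 (B k) ε - twistRank ρ (χ k)) ^ 2 ≤
        ((N - Module.finrank ℚ V : ℕ) : ℝ) ^ 2 + η) ∧
  ((∀ (n : ℕ) (χ : Representation ℂ Gal(AlgebraicClosure K/K) (Fin n → ℂ)), IsArtin χ →
    χ.IsIrreducible → ∃ δ : ℤ, TwistDefect X d m N ρ χ δ) →
    ∃ (κ : Type) (_ : Fintype κ) (n : κ → ℕ)
      (χ : ∀ k, Representation ℂ Gal(AlgebraicClosure K/K) (Fin (n k) → ℂ)) (δ : κ → ℤ)
      (M : IntermediateField K (AlgebraicClosure K)),
      (∀ k, IsArtin (χ k) ∧ (χ k).IsIrreducible ∧ δ k ≠ 0 ∧ TwistDefect X d m N ρ (χ k) (δ k)) ∧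
      (∀ k k', k ≠ k' → IsEmpty ((χ k).Equiv (χ k'))) ∧
      ∑ k, δ k ^ 2 ≤ ((N - Module.finrank ℚ V : ℕ) : ℤ) ^ 2 ∧
      (∀ (n' : ℕ) (χ' : Representation ℂ Gal(AlgebraicClosure K/K) (Fin n' → ℂ)), IsArtin χ' →
        χ'.IsIrreducible → (∀ k, IsEmpty (χ'.Equiv (χ k))) → TwistDefect X d m N ρ χ' 0) ∧
      FiniteDimensional K M ∧ IsGalois K M ∧
      ∀ (F : IntermediateField K (AlgebraicClosure K)) [NumberField F],
        (∀ B : HeightOneSpectrum (𝓞 F) → ℂ[X], EF.IsEulerSystem X d (2 * m) N B →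
          (∀ᶠ ε : ℝ in 𝓝[>] 0, LFun B (((2 * m : ℕ) : ℂ) / 2 + 1 + ε) ≠ 0) ∧
          Tendsto (EF.size (2 * m) B) (𝓝[>] 0)
            (𝓝 ((rank ρ F : ℝ) - ∑ k, (δ k : ℝ) * fixedDim (χ k) F))) ∧
        (∀ k, fixedDim (χ k) F =
          fixedDim (χ k) (F ⊓ M : IntermediateField K (AlgebraicClosure K))) ∧
        ∀ δ₁ δ₂ : ℤ, TD.Defect X d m N ρ F δ₁ → TD.Defect X d m N ρ (F ⊓ M) δ₂ → δ₁ = δ₂)

end

end Pool.Agent.W353.AT
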