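import Pool.Agent.W353.AT.Abs2
import Pool.Agent.W353.TD.Main
import Pool.Agent.W353.AT.TDefs

/-! The sizes on the complement of the algebraic part for Artin twists and for number fields. -/

set_option autoImplicit false

namespace Pool.Agent.W353.AT

open Complex Filter Topology ComplexConjugate NumberField IsDedekindDomain Asymptotics
  Pool.Agent.W401.Cheb Pool.Agent.W540.BE Pool.Agent.W353.L1 Polynomial
open Pool.Agent.W353.NF (act act_apply act_trans fixn fixn_conj fixn_inv ker_act_open cz abs_cz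
  fixn_le SzH EP_eq vx)
open Pool.Agent.W353.TP (HX sysH LL LL_tendsto E_H bdd_isLittleO lam0_sub)
open Pool.Agent.H341R2 (lam lam_tendsto sysK)
open Pool.Agent.W353.TD (ch)
open Pool.Agent.W353.PV (tF)

section
variable {K : Type} [Field K] [NumberField K]

/-- **Limits of sizes.** -/
theorem lim_of_has {T' : HeightOneSpectrum (𝓞 K) → ℝ} {T : HX K → ℝ} (hTT : ∀ x, T x = T' (vx x))
    {Ψ : HeightOneSpectrum (𝓞 K) → ℝ} {X : ℝ → ℝ} (hS : SzH T Ψ X) {D : ℝ}
    (hD : Has (fun v => T' v * Ψ v) D) : Tendsto X (𝓝[>] 0) (𝓝 D) := by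
  obtain ⟨⟨B, hB⟩, hlim⟩ := hD
  have hLL : ∀ᶠ ε : ℝ in 𝓝[>] 0, 0 < LL ε := LL_tendsto.eventually_gt_atTop 0
  have o1 : (fun ε => X ε * LL ε - EP (nm K) ε (fun v => T' v * Ψ v)) =o[𝓝[>] 0] LL := by
    have h1 : (fun ε => (sysK K).E ε (fun v => T' v * Ψ v) - (sysH K).E ε
        (fun x : HX K => T x * Ψ (vx x))) =o[𝓝[>] 0] LL := by
      refine bdd_isLittleO ⟨B * Module.finrank ℚ K * Pool.Agent.H921R2.TatePole.C0, ?_⟩
      filter_upwards [self_mem_nhdsWithin] with ε hε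
      have h2 := E_H hB hε
      have e : (fun x : HX K => T x * Ψ (vx x)) = fun x : HX K =>
          T' (Pool.Agent.H921R2.TatePole.kerPrime x.1 x.2).1.1 *
            Ψ (Pool.Agent.H921R2.TatePole.kerPrime x.1 x.2).1.1 := by
        funext x
        rw [hTT]
        rfl
      rw [e]
      exact h2
    unfold SzH at hS
    refine (hS.sub h1).congr' ?_ (EventuallyEq.refl _ _)
    filter_upwards with ε
    rw [EP_eq]
    exact (by intro a b c; ring : ∀ a b c : ℝ, (a - b) - (c - b) = a - c) _ _ _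
  have h2 : Tendsto (fun ε => X ε - EP (nm K) ε (fun v => T' v * Ψ v) / LL ε) (𝓝[>] 0)
      (𝓝 0) := by
    have h3 := o1.tendsto_div_nhds_zero
    refine h3.congr' ?_
    filter_upwards [hLL] with ε hε
    rw [sub_div, mul_div_cancel_right₀ _ hε.ne']
  have h3 : Tendsto (fun ε => lam ε / LL ε) (𝓝[>] 0) (𝓝 1) := by
    have h4 := lam0_sub.tendsto_div_nhds_zero.add_const 1
    rw [zero_add] at h4
    refine h4.congr' ?_
    filter_upwards [hLL] with ε hε
    rw [sub_div, div_self hε.ne']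
    ring
  have h4 := (hlim.mul h3).add h2
  rw [mul_one, add_zero] at h4
  refine h4.congr' ?_
  filter_upwards [hLL, lam_tendsto.eventually_gt_atTop 0] with ε hε hε'
  rw [div_mul_div_cancel₀ hε'.ne']
  ring

variable {V : Type} [AddCommGroup V] [Module ℚ V]

theorem extendScalars_char [FiniteDimensional ℚ V] (ρ : Representation ℚ (GK K) V) (g : GK K) :
    (extendScalars ρ).character g = ((ch ρ g : ℝ) : ℂ) := by
  unfold Representation.character ch
  have h1 : (extendScalars ρ) g = (ρ g).baseChange ℂ := rfl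
  rw [h1, LinearMap.trace_baseChange]
  simp

/-- **Mean value of the character.** -/
theorem cheb_tw [FiniteDimensional ℚ V] (ρ : Representation ℚ (GK K) V)
    (hρ : ∃ U : Subgroup (GK K), IsOpen (U : Set (GK K)) ∧ ∀ u ∈ U, ρ u = 1)
    (x : MRep (GK K)) (hx : IsArtin x.2)
    (σ : HeightOneSpectrum (𝓞 K) → GK K) (hσ : ∀ v, IsFrob v (σ v)) :
    Has (fun v => ch ρ (σ v)⁻¹ * RR x.2 0 σ v) (twistRank ρ x.2) := by
  classical
  obtain ⟨U₁, hU₁n, hU₁, hx1⟩ := exists_common (κ := Unit) (n := fun _ => x.1)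
    (fun _ => x.2) fun _ => hx
  obtain ⟨W, hW, hW1⟩ := hρ
  set U₂ := (MonoidHom.toHomUnits ρ).ker with hU₂
  have hU₂o : IsOpen (U₂ : Set (GK K)) := by
    refine Subgroup.isOpen_mono (H₁ := W) ?_ hW
    intro u hu
    rw [hU₂, MonoidHom.mem_ker]
    exact Units.ext (hW1 u hu)
  set U := U₁ ⊓ U₂ with hUd
  have hU : IsOpen (U : Set (GK K)) := by
    rw [hUd, Subgroup.coe_inf]
    exact hU₁.inter hU₂o
  have hfin : Finite (GK K ⧸ U) := Subgroup.quotient_finite_of_isOpen U hU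
  let _ : Fintype (GK K ⧸ U) := Fintype.ofFinite _
  have htriv : ∀ u ∈ U, ((extendScalars ρ).tprod x.2) u = 1 := by
    intro u hu
    have h1 : x.2 u = 1 := hx1 () u hu.1
    have h2 : ρ u = 1 := congrArg Units.val ((MonoidHom.mem_ker).1 hu.2)
    have h3 : extendScalars ρ u = 1 := by
      change (ρ u).baseChange ℂ = 1
      rw [h2]
      exact LinearMap.baseChange_one (R := ℚ) (A := ℂ) (M := V)
    rw [Representation.tprod_apply, h1, h3]
    exact TensorProduct.map_one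
  set Q := qrep U ((extendScalars ρ).tprod x.2) htriv with hQ
  have hchar : ∀ g : GK K, ((extendScalars ρ).tprod x.2).character g =
      ((ch ρ g : ℝ) : ℂ) * x.2.character g := by
    intro g
    rw [Representation.char_tensor, Pi.mul_apply, extendScalars_char]
  have hinv : Module.finrank ℂ Q.invariants = twistRank ρ x.2 := by
    unfold twistRank
    have e : Q.invariants = ((extendScalars ρ).tprod x.2).invariants := by
      ext y
      constructor
      · intro h g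
        exact h (QuotientGroup.mk g)
      · intro h g
        obtain ⟨g, rfl⟩ := QuotientGroup.mk_surjective g
        exact h g
    rw [e]
  have hmean : avC U (fun q => Q.character q⁻¹) = ((twistRank ρ x.2 : ℝ) : ℂ) := by
    unfold avC
    have e5 : ∑ q : GK K ⧸ U, Q.character q⁻¹ = ∑ q : GK K ⧸ U, Q.character q :=
      Equiv.sum_comp (Equiv.inv (GK K ⧸ U)) (fun q => Q.character q)
    rw [finsum_eq_sum_of_fintype, e5, sumC_char, Nat.card_eq_fintype_card, hinv]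
    have h0 : (Fintype.card (GK K ⧸ U) : ℂ) ≠ 0 := by exact_mod_cast Fintype.card_ne_zero
    rw [inv_mul_cancel_left₀ h0]
    push_cast
    rfl
  have h1 := cheb_edge U hU (fun q => Q.character q⁻¹) (fun a g => by
    have h2 : (g * a * g⁻¹)⁻¹ = g * a⁻¹ * g⁻¹ := by group
    rw [h2, Representation.char_conj]) _ hmean σ hσ 0
  rw [if_pos rfl] at h1
  have he : ∀ v, (Q.character (QuotientGroup.mk (σ v))⁻¹ *
      ((nm K v : ℕ) : ℂ) ^ (-(((0 : ℝ) : ℂ) * I))).re = ch ρ (σ v)⁻¹ * RR x.2 0 σ v := by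
    intro v
    have e1 : Q.character (QuotientGroup.mk (σ v))⁻¹ =
        ((extendScalars ρ).tprod x.2).character (σ v)⁻¹ := rfl
    rw [e1, hchar, mul_assoc, Complex.re_ofReal_mul]
    rfl
  refine ⟨⟨∑ q : GK K ⧸ U, ‖Q.character q⁻¹‖, fun v => ?_⟩, ?_⟩
  · change |ch ρ (σ v)⁻¹ * RR x.2 0 σ v| ≤ _
    rw [← he]
    refine (Complex.abs_re_le_norm _).trans ?_
    have hz : ‖((nm K v : ℕ) : ℂ) ^ (-(((0 : ℝ) : ℂ) * I))‖ = 1 := norm_zz 0 v
    rw [norm_mul, hz, mul_one]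
    exact Finset.single_le_sum (f := fun q : GK K ⧸ U => ‖Q.character q⁻¹‖)
      (fun q _ => norm_nonneg _) (Finset.mem_univ (QuotientGroup.mk (σ v)))
  · refine h1.congr fun ε => ?_
    congr 2
    funext v
    exact he v

variable {l : ℕ} (ρ : Representation ℚ (GK K) V) (X : Set (MvPolynomial (Fin l) (𝓞 K)))
  (d i N s : ℕ) (σ : HeightOneSpectrum (𝓞 K) → GK K)

open Classical in
/-- the normalised trace on the complement -/
noncomputable def tC (v : HeightOneSpectrum (𝓞 K)) : ℝ :=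
  if |tF X d i N K v - ch ρ (σ v)⁻¹| ≤ s then tF X d i N K v - ch ρ (σ v)⁻¹ else 0

theorem abs_tC (v : HeightOneSpectrum (𝓞 K)) : |tC ρ X d i N s σ v| ≤ s := by
  unfold tC
  split_ifs with h
  · exact h
  · rw [abs_zero]
    exact Nat.cast_nonneg _

variable {ρ X d i N s σ}

/-- **The sizes of the twists on the complement.** -/
theorem tw_C [FiniteDimensional ℚ V] (hi : i ≤ 2 * d) (hσ : ∀ v, IsFrob v (σ v))
    (hgood : ∀ᶠ v in cofinite, |tF X d i N K v - ch ρ (σ v)⁻¹| ≤ s)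
    (hρ : ∃ U : Subgroup (GK K), IsOpen (U : Set (GK K)) ∧ ∀ u ∈ U, ρ u = 1)
    (x : MRep (GK K)) (hx : IsArtin x.2)
    (B : HeightOneSpectrum (𝓞 K) → ℂ[X]) (hB : IsTwistedSystem X d i N x.2 0 B) :
    (∀ᶠ ε : ℝ in 𝓝[>] 0, Pool.Agent.W353.EF.LFun B
      (Pool.Agent.W353.EH.edgePoint i 0 + ε) ≠ 0) ∧
    Tendsto (fun ε : ℝ => (EP (nm K) ε fun v => tC ρ X d i N s σ v * RR x.2 0 σ v) / lam ε -
      (Pool.Agent.W353.EH.size i 0 B ε - twistRank ρ x.2)) (𝓝[>] 0) (𝓝 0) := by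
  classical
  obtain ⟨U, hUn, hU, hx1⟩ := exists_common (κ := Unit) (n := fun _ => x.1)
    (fun _ => x.2) fun _ => hx
  have hx1 : ∀ u ∈ U, x.2 u = 1 := hx1 ()
  have hfin : Finite (GK K ⧸ U) := Subgroup.quotient_finite_of_isOpen U hU
  have h1 := tw_size hi U x.2 hx1 0 B hB σ hσ
  refine ⟨h1.1, ?_⟩
  obtain ⟨⟨Bc, hBc⟩, hlim⟩ := cheb_tw ρ hρ x hx σ hσ
  have hbad : {v | ¬ |tF X d i N K v - ch ρ (σ v)⁻¹| ≤ s}.Finite := by
    rwa [Filter.eventually_cofinite] at hgood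
  -- the finitely many bad primes
  set φ : HeightOneSpectrum (𝓞 K) → ℝ := fun v => (tC ρ X d i N s σ v -
    (tF X d i N K v - ch ρ (σ v)⁻¹)) * RR x.2 0 σ v with hφ
  have hR : ∀ v, |RR x.2 0 σ v| ≤ x.1 := fun v => abs_RR_le U x.2 hx1 _ _ _
  have hTF : ∀ v, |tF X d i N K v| ≤ (N : ℝ) := fun v => abs_tr_le _ _ _
  have hb1 : ∀ v, |tF X d i N K v * RR x.2 0 σ v| ≤ N * x.1 := by
    intro v
    rw [abs_mul]
    exact mul_le_mul (hTF v) (hR v) (abs_nonneg _) (Nat.cast_nonneg _)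
  have hb2 : ∀ v, |tC ρ X d i N s σ v * RR x.2 0 σ v| ≤ s * x.1 := by
    intro v
    rw [abs_mul]
    exact mul_le_mul (abs_tC _ _ _ _ _ _ _ _) (hR v) (abs_nonneg _) (Nat.cast_nonneg _)
  have hφ2 : ∀ v, φ v = tC ρ X d i N s σ v * RR x.2 0 σ v +
      ((-1) * (tF X d i N K v * RR x.2 0 σ v) + ch ρ (σ v)⁻¹ * RR x.2 0 σ v) := by
    intro v
    rw [hφ]
    ring
  have hb3 : ∀ v, |(-1 : ℝ) * (tF X d i N K v * RR x.2 0 σ v)| ≤ N * x.1 := by
    intro v
    rw [abs_mul, abs_neg, abs_one, one_mul]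
    exact hb1 v
  have hb4 : ∀ v, |(-1 : ℝ) * (tF X d i N K v * RR x.2 0 σ v) +
      ch ρ (σ v)⁻¹ * RR x.2 0 σ v| ≤ N * x.1 + Bc := fun v =>
    (abs_add_le _ _).trans (add_le_add (hb3 v) (hBc v))
  have hφB : ∀ v, |φ v| ≤ s * x.1 + (N * x.1 + Bc) := by
    intro v
    rw [hφ2]
    exact (abs_add_le _ _).trans (add_le_add (hb2 v) (hb4 v))
  have hφ0 : Tendsto (fun ε : ℝ => (EP (nm K) ε φ) / lam ε) (𝓝[>] 0) (𝓝 0) := by
    have hbd : ∀ ε : ℝ, 0 < ε → |EP (nm K) ε φ| ≤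
        hbad.toFinset.card * (s * x.1 + (N * x.1 + Bc)) := by
      intro ε hε
      refine EP_finsupp normSys hbad.toFinset φ (fun v hv => ?_) _ (fun v => hφB v) hε
      rw [Set.Finite.mem_toFinset] at hv
      have h2 : |tF X d i N K v - ch ρ (σ v)⁻¹| ≤ s := by
        by_contra h
        exact hv h
      rw [hφ]
      simp only
      unfold tC
      rw [if_pos h2, sub_self, zero_mul]
    rw [tendsto_zero_iff_abs_tendsto_zero]
    have h3 : Tendsto (fun ε : ℝ => (hbad.toFinset.card * (s * x.1 + (N * x.1 + Bc)) : ℝ) /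
        lam ε) (𝓝[>] 0) (𝓝 0) := tendsto_const_nhds.div_atTop lam_tendsto
    refine squeeze_zero' (Eventually.of_forall fun ε => abs_nonneg _) ?_ h3
    filter_upwards [self_mem_nhdsWithin, lam_tendsto.eventually_gt_atTop 0] with ε hε hε'
    rw [Function.comp_apply, abs_div, abs_of_pos hε']
    exact div_le_div_of_nonneg_right (hbd ε hε) hε'.le
  have h2 := (h1.2.sub hlim).add hφ0
  have e0 : (0 : ℝ) - twistRank ρ x.2 + 0 = -(twistRank ρ x.2 : ℝ) := by ring
  rw [e0] at h2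
  have h3 := h2.add_const (twistRank ρ x.2 : ℝ)
  rw [neg_add_cancel] at h3
  refine h3.congr' ?_
  filter_upwards [self_mem_nhdsWithin] with ε hε
  have hε' : (0 : ℝ) < ε := hε
  have e1 : EP (nm K) ε φ = (EP (nm K) ε fun v => tC ρ X d i N s σ v * RR x.2 0 σ v) +
      (-(EP (nm K) ε fun v => tF X d i N K v * RR x.2 0 σ v) +
        EP (nm K) ε fun v => ch ρ (σ v)⁻¹ * RR x.2 0 σ v) := by
    have e2 : EP (nm K) ε φ = EP (nm K) ε (fun v => tC ρ X d i N s σ v * RR x.2 0 σ v +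
      ((-1) * (tF X d i N K v * RR x.2 0 σ v) + ch ρ (σ v)⁻¹ * RR x.2 0 σ v)) := by
      congr 1
      funext v
      exact hφ2 v
    rw [e2, EP_add normSys hε' hb2 hb4, EP_add normSys hε' hb3 hBc, EP_const_mul]
    ring
  rw [e1]
  ring

end

end Pool.Agent.W353.AT
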