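import Pool.Agent.W353.AT.Defs
import Pool.Agent.W353.AT.Bessel

/-! The edge line of the L-functions of Artin twists: proofs. -/

set_option autoImplicit false

namespace Pool.Agent.W353.AT

open Complex Filter Topology ComplexConjugate Pool.Agent.H341R2 NumberField IsDedekindDomain
  Pool.Agent.W401.Cheb Pool.Agent.W540.BE Polynomial Pool.Agent.W353.L1
open Pool.Agent.W353.EF (IsFrobenius LFun)
open Pool.Agent.W353.EH (edgePoint size HasOrder)
open Pool.Agent.W353.PV (Eig alp tF pick_spec lim_ord)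

section
variable {K : Type} [Field K] [NumberField K] {l : ℕ} {X : Set (MvPolynomial (Fin l) (𝓞 K))}
  {d i N : ℕ}

theorem edge_eq (τ : ℝ) :
    ((((i : ℝ) / 2 : ℝ) : ℂ) + 1 + (τ : ℂ) * Complex.I) = edgePoint i τ := by
  unfold edgePoint
  push_cast
  ring

theorem edge_re (τ : ℝ) : (edgePoint i τ).re = (i : ℝ) / 2 + 1 := by
  unfold edgePoint
  simp

/-- the chosen eigenvalues are the eigenvalues -/
theorem sys_alp (hi : i ≤ 2 * d) {n : ℕ}
    {ρ : Representation ℂ Gal(AlgebraicClosure K/K) (Fin n → ℂ)} {τ : ℝ}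
    {B : HeightOneSpectrum (𝓞 K) → ℂ[X]} (hB : IsTwistedSystem X d i N ρ τ B) :
    ∀ᶠ v in cofinite, Eig X d i v (alp X d i N K v) ∧ ∀ σ : GK K, IsFrob v σ → ∀ z : ℂ,
      (B v).eval z = ∏ j, LinearMap.det (1 - (alp X d i N K v j * z) • ρ σ⁻¹) := by
  refine hB.1.mono fun v hv => ?_
  obtain ⟨α, h1, h2⟩ := hv
  have h3 : Eig X d i v (alp X d i N K v) := pick_spec ⟨α, h1⟩
  refine ⟨h3, fun σ hσ z => ?_⟩
  rw [h2 σ hσ z]
  have h1' : Eig X d i v α := h1
  have h4 := congrArg (fun s : Multiset ℂ =>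
    (s.map fun a => LinearMap.det (1 - (a * z) • ρ σ⁻¹)).prod) (h1'.unique' hi h3)
  simp only [Multiset.map_map] at h4
  exact h4

/-- The size of a twist. -/
theorem tw_size (hi : i ≤ 2 * d) (U : Subgroup (GK K)) [U.Normal] [Finite (GK K ⧸ U)]
    {n : ℕ} (ρ : Representation ℂ (GK K) (Fin n → ℂ)) (hρ : ∀ u ∈ U, ρ u = 1) (τ : ℝ)
    (B : HeightOneSpectrum (𝓞 K) → ℂ[X]) (hB : IsTwistedSystem X d i N ρ τ B)
    (σ : HeightOneSpectrum (𝓞 K) → GK K) (hσ : ∀ v, IsFrob v (σ v)) :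
    (∀ᶠ ε : ℝ in 𝓝[>] 0, LFun B (edgePoint i τ + ε) ≠ 0) ∧
    Tendsto (fun ε : ℝ => (EP (nm K) ε fun v => tF X d i N K v * RR ρ τ σ v) / lam ε -
      size i τ B ε) (𝓝[>] 0) (𝓝 0) := by
  have hg := sys_alp hi hB
  have h := size_corr ((i : ℝ) / 2) (alp X d i N K)
    (hg.mono fun v hv j => hv.1.norm j) (hg.mono fun v hv => hv.1.im hi) U ρ hρ τ B
    (hg.mono fun v hv => hv.2) (by rw [edge_eq]; exact hB.2) (LFun B) (fun s _ => rfl) σ hσ
  simp only [edge_eq] at h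
  refine ⟨h.1, h.2.congr fun ε => ?_⟩
  have e : (fun v => ((tr ((i : ℝ) / 2) (alp X d i N K) v : ℂ) *
      (ρ.character (σ v)⁻¹ * zz τ v)).re) = fun v => tF X d i N K v * RR ρ τ σ v := by
    funext v
    rw [Complex.re_ofReal_mul]
    rfl
  rw [e]
  rfl

theorem tw_lim (hi : i ≤ 2 * d) (U : Subgroup (GK K)) [U.Normal] [Finite (GK K ⧸ U)]
    {n : ℕ} (ρ : Representation ℂ (GK K) (Fin n → ℂ)) (hρ : ∀ u ∈ U, ρ u = 1) (τ : ℝ)
    (B : HeightOneSpectrum (𝓞 K) → ℂ[X]) (hB : IsTwistedSystem X d i N ρ τ B) {m : ℤ}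
    (hm : HasOrder i τ B m) : Tendsto (size i τ B) (𝓝[>] 0) (𝓝 (-(m : ℝ))) := by
  choose σ hσ using exists_isFrob (F := K)
  obtain ⟨Λ, h1, h2, h3⟩ := hm
  exact lim_ord (tw_size hi U ρ hρ τ B hB σ hσ).1 h1 (h2.mono fun s hs hs' => hs (by
    rw [edge_re] at hs'
    exact hs')) h3

/-- a common open normal subgroup -/
theorem exists_common {κ : Type*} [Finite κ] {n : κ → ℕ}
    (ρ : ∀ k, Representation ℂ (GK K) (Fin (n k) → ℂ)) (h : ∀ k, IsArtin (ρ k)) :
    ∃ U : Subgroup (GK K), U.Normal ∧ IsOpen (U : Set (GK K)) ∧ ∀ k, ∀ u ∈ U, ρ k u = 1 := by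
  set U : κ → Subgroup (GK K) := fun k => (MonoidHom.toHomUnits (ρ k)).ker with hU
  have hmem : ∀ k u, u ∈ U k → ρ k u = 1 := by
    intro k u hu
    have h1 : MonoidHom.toHomUnits (ρ k) u = 1 := (MonoidHom.mem_ker).1 hu
    exact congrArg Units.val h1
  have hopen : ∀ k, IsOpen (U k : Set (GK K)) := by
    intro k
    obtain ⟨W, hW, hW1⟩ := h k
    refine Subgroup.isOpen_mono (H₁ := W) ?_ hW
    intro u hu
    rw [hU, MonoidHom.mem_ker]
    exact Units.ext (hW1 u hu)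
  refine ⟨⨅ k, U k, ?_, ?_, fun k u hu => hmem k u ((Subgroup.mem_iInf.1 hu) k)⟩
  · refine ⟨fun u hu g => ?_⟩
    rw [Subgroup.mem_iInf] at hu ⊢
    exact fun k => (inferInstance : (U k).Normal).conj_mem u (hu k) g
  · rw [Subgroup.coe_iInf]
    exact isOpen_iInter_of_finite hopen

/-- **Bessel's inequality on the edge line.** -/
theorem edgeBessel (hi : i ≤ 2 * d) : EdgeBessel X d i N := by
  classical
  intro κ _ n ρ τ hA hirr hne
  obtain ⟨U, hUn, hU, hρ⟩ := exists_common ρ hA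
  have hfin : Finite (GK K ⧸ U) := Subgroup.quotient_finite_of_isOpen U hU
  choose σ hσ using exists_isFrob (F := K)
  have hT : ∀ v, |tF X d i N K v| ≤ (N : ℝ) := fun v => abs_tr_le _ _ _
  refine ⟨fun B hB => ⟨fun k => (tw_size hi U (ρ k) (hρ k) (τ k) (B k) (hB k) σ hσ).1,
    fun η hη => ?_⟩, fun m hm => ?_⟩
  · exact bessel U hU Finset.univ ρ hρ τ σ hσ (Nat.cast_nonneg N) hT
      (x := fun k => size i (τ k) (B k))
      (fun k _ => (tw_size hi U (ρ k) (hρ k) (τ k) (B k) (hB k) σ hσ).2)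
      (fun k _ => hirr k) (fun k _ l _ => hne k l) hη
  · choose B hB hm using hm
    have h1 := bessel_lim U hU Finset.univ ρ hρ τ σ hσ (Nat.cast_nonneg N) hT
      (x := fun k => size i (τ k) (B k))
      (fun k _ => (tw_size hi U (ρ k) (hρ k) (τ k) (B k) (hB k) σ hσ).2)
      (fun k _ => hirr k) (fun k _ l _ => hne k l)
      (fun k _ => tw_lim hi U (ρ k) (hρ k) (τ k) (B k) (hB k) (hm k))
    have h2 : ∑ k, (-(m k : ℝ)) ^ 2 = ((∑ k, m k ^ 2 : ℤ) : ℝ) := by
      push_cast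
      exact Finset.sum_congr rfl fun k _ => by ring
    rw [h2] at h1
    exact_mod_cast h1

/-- **The sup-norm inequality on the edge line.** -/
theorem edgeSupNorm (hi : i ≤ 2 * d) : EdgeSupNorm X d i N := by
  classical
  intro U _ hU κ _ n ρ τ hρ
  have hfin : Finite (GK K ⧸ U) := Subgroup.quotient_finite_of_isOpen U hU
  let _ : Fintype (GK K ⧸ U) := Fintype.ofFinite _
  have hnrm : ∀ c : κ → ℝ, nrm U τ (comb U Finset.univ ρ hρ c) =
      meanNorm U τ (fun g => ∑ k, (c k : ℂ) * (ρ k).character g) := by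
    intro c
    have e1 : ∀ q : GK K ⧸ U,
        comb U Finset.univ ρ hρ c q⁻¹ = ∑ k, (c k : ℂ) * (ρ k).character q.out := by
      intro q
      unfold comb
      refine Finset.sum_congr rfl fun k _ => ?_
      rw [inv_inv]
      congr 1
      conv_lhs => rw [← QuotientGroup.out_eq' q]
      rfl
    have e2 : ∑ᶠ q, |(comb U Finset.univ ρ hρ c q).re| =
        ∑ᶠ q : GK K ⧸ U, |(∑ k, (c k : ℂ) * (ρ k).character q.out).re| := by
      rw [finsum_eq_sum_of_fintype, finsum_eq_sum_of_fintype, ← Equiv.sum_comp (Equiv.inv _)]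
      exact Finset.sum_congr rfl fun q _ => by rw [Equiv.inv_apply, e1]
    have e3 : ∑ᶠ q, ‖comb U Finset.univ ρ hρ c q‖ =
        ∑ᶠ q : GK K ⧸ U, ‖∑ k, (c k : ℂ) * (ρ k).character q.out‖ := by
      rw [finsum_eq_sum_of_fintype, finsum_eq_sum_of_fintype, ← Equiv.sum_comp (Equiv.inv _)]
      exact Finset.sum_congr rfl fun q _ => by rw [Equiv.inv_apply, e1]
    unfold nrm meanNorm avR
    rw [e2, e3]
    split_ifs with h
    · exact inv_mul_eq_div _ _
    · rw [inv_mul_eq_div, mul_div_assoc]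
  -- all systems have the same eigenvalues
  have hmain : ∀ B : κ → HeightOneSpectrum (𝓞 K) → ℂ[X],
      (∀ k, IsTwistedSystem X d i N (ρ k) τ (B k)) →
      (∀ᶠ v in cofinite, (κ → True) ∧ (Nonempty κ → Eig X d i v (alp X d i N K v))) ∧
      ∀ k, ∀ᶠ v in cofinite, ∀ σ : GK K, IsFrob v σ → ∀ z : ℂ,
        (B k v).eval z = ∏ j, LinearMap.det (1 - (alp X d i N K v j * z) • ρ k σ⁻¹) := by
    intro B hB
    refine ⟨?_, fun k => (sys_alp hi (hB k)).mono fun v hv => hv.2⟩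
    by_cases hκ : Nonempty κ
    · obtain ⟨k⟩ := hκ
      exact (sys_alp hi (hB k)).mono fun v hv => ⟨fun _ => trivial, fun _ => hv.1⟩
    · filter_upwards with v
      exact ⟨fun _ => trivial, fun h => absurd h hκ⟩
  by_cases hκ : Nonempty κ
  swap
  · have hem : IsEmpty κ := not_nonempty_iff.1 hκ
    have h0 : ∀ (f : κ → ℝ), ∑ k, f k = 0 := fun f => Finset.sum_of_isEmpty _
    have hmn : ∀ f : GK K → ℂ, 0 ≤ (N : ℝ) * meanNorm U τ f := by
      intro f
      have := Real.pi_pos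
      unfold meanNorm
      refine mul_nonneg (Nat.cast_nonneg _) (div_nonneg ?_ (Nat.cast_nonneg _))
      split_ifs
      · exact finsum_nonneg fun q => abs_nonneg _
      · exact mul_nonneg (by positivity) (finsum_nonneg fun q => norm_nonneg _)
    refine ⟨fun B _ c η hη => ?_, fun m _ => ⟨fun c => ?_, fun _ _ _ g => ?_⟩⟩
    · filter_upwards with ε
      rw [h0, abs_zero]
      have := hmn (fun g => ∑ k, (c k : ℂ) * (ρ k).character g)
      linarith
    · rw [h0, abs_zero]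
      exact hmn _
    · rw [Finset.sum_of_isEmpty, norm_zero]
      have := Real.pi_pos
      split_ifs <;> positivity
  have hw : ∀ (B : κ → HeightOneSpectrum (𝓞 K) → ℂ[X]),
      (∀ k, IsTwistedSystem X d i N (ρ k) τ (B k)) → ∀ k, ∀ v,
      (B k v).eval (((nm K v : ℕ) : ℂ) ^
        (-((((i : ℝ) / 2 : ℝ) : ℂ) + 1 + (τ : ℂ) * Complex.I))) ≠ 0 := by
    intro B hB k v
    rw [edge_eq]
    exact (hB k).2 v
  have hxs : ∀ (B : κ → HeightOneSpectrum (𝓞 K) → ℂ[X]) k ε,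
      xs ((i : ℝ) / 2) (fun _ => τ) (fun k => LFun (B k)) k ε = size i τ (B k) ε := by
    intro B k ε
    unfold xs size
    rw [edge_eq]
  refine ⟨fun B hB c η hη => ?_, fun m hm => ?_⟩
  · obtain ⟨h1, h2⟩ := hmain B hB
    have h3 := fin1 ((i : ℝ) / 2) (alp X d i N K)
      (h1.mono fun v hv j => (hv.2 hκ).norm j) (h1.mono fun v hv => (hv.2 hκ).im hi) U hU ρ hρ
      (fun _ => τ) B h2 (hw B hB) (fun k => LFun (B k)) (fun k s _ => rfl) τ c
      (fun k _ => rfl) hη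
    rw [hnrm] at h3
    simp only [hxs] at h3
    exact h3
  · choose B hB hm using hm
    obtain ⟨h1, h2⟩ := hmain B hB
    have hm' : ∀ k, Tendsto (xs ((i : ℝ) / 2) (fun _ => τ) (fun k => LFun (B k)) k) (𝓝[>] 0)
        (𝓝 (-(m k : ℝ))) := by
      intro k
      refine (tw_lim hi U (ρ k) (hρ k) τ (B k) (hB k) (hm k)).congr fun ε => ?_
      rw [hxs]
    refine ⟨fun c => ?_, fun hirr hne hsum g => ?_⟩
    · have h3 := fin2 ((i : ℝ) / 2) (alp X d i N K)
        (h1.mono fun v hv j => (hv.2 hκ).norm j) (h1.mono fun v hv => (hv.2 hκ).im hi) U hU ρ hρ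
        (fun _ => τ) B h2 (hw B hB) (fun k => LFun (B k)) (fun k s _ => rfl) m hm' τ c
        (fun k _ => rfl)
      rw [hnrm] at h3
      exact h3
    · have h3 := fin_complete ((i : ℝ) / 2) (alp X d i N K)
        (h1.mono fun v hv j => (hv.2 hκ).norm j) (h1.mono fun v hv => (hv.2 hκ).im hi) U hU ρ hρ
        (fun _ => τ) B h2 (hw B hB) (fun k => LFun (B k)) (fun k s _ => rfl) m hm' τ
        Finset.univ (fun k _ => rfl) (fun k _ => hirr k) (fun k _ l _ hkl => hne k l hkl) hsum g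
      refine h3.trans (le_of_eq ?_)
      split_ifs
      · rw [mul_one]
      · ring

end

end Pool.Agent.W353.AT
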