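import Pool.Agent.W353.AT.Dec
import Pool.Agent.W353.AT.Main
import Pool.Agent.W353.NF.Pair

/-! The permutation character of a number field as a sum of irreducible Artin characters. -/

set_option autoImplicit false

namespace Pool.Agent.W353.AT

open Complex Filter Topology ComplexConjugate NumberField IsDedekindDomain
  Pool.Agent.W401.Cheb Pool.Agent.W540.BE Pool.Agent.W353.L1
open Pool.Agent.W353.NF (act act_apply act_trans fixn fixn_conj fixn_inv ker_act_open)

section
variable {G : Type} [Group G]

/-- inflation -/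
noncomputable def infl (U : Subgroup G) [U.Normal] (x : MRep (G ⧸ U)) : MRep G :=
  ⟨x.1, x.2.comp (QuotientGroup.mk' U)⟩

theorem infl_irr (U : Subgroup G) [U.Normal] (x : MRep (G ⧸ U)) (hx : x.2.IsIrreducible) :
    (infl U x).2.IsIrreducible := by
  have hi : IsSimpleOrder (Subrepresentation x.2) := hx
  let e : Subrepresentation x.2 ≃o Subrepresentation (infl U x).2 :=
    { toFun := fun S => ⟨S.toSubmodule, fun g v hv => S.apply_mem_toSubmodule
        (QuotientGroup.mk g) hv⟩
      invFun := fun S => ⟨S.toSubmodule, fun g v hv => by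
        obtain ⟨g, rfl⟩ := QuotientGroup.mk_surjective g
        exact S.apply_mem_toSubmodule g hv⟩
      left_inv := fun S => rfl
      right_inv := fun S => rfl
      map_rel_iff' := Iff.rfl }
  exact (OrderIso.isSimpleOrder_iff e).1 hi

theorem infl_triv (U : Subgroup G) [U.Normal] (x : MRep (G ⧸ U)) (u : G) (hu : u ∈ U) :
    (infl U x).2 u = 1 := by
  change x.2 (QuotientGroup.mk u) = 1
  rw [(QuotientGroup.eq_one_iff u).2 hu, map_one]

theorem infl_char (U : Subgroup G) [U.Normal] (x : MRep (G ⧸ U)) (g : G) :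
    (infl U x).2.character g = x.2.character (QuotientGroup.mk g) := rfl

end

section
variable (K F : Type) [Field K] [NumberField K] [Field F] [NumberField F] [Algebra K F]

/-- the permutation representation -/
noncomputable def permRep : Representation ℂ (GK K) ((F →ₐ[K] AlgebraicClosure K) → ℂ) where
  toFun g := LinearMap.funLeft ℂ ℂ ⇑((act K F g)⁻¹)
  map_one' := by
    rw [map_one, inv_one]
    exact LinearMap.ext fun f => LinearMap.funLeft_id ℂ ℂ f
  map_mul' g h := by
    rw [map_mul, mul_inv_rev]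
    exact LinearMap.funLeft_comp ℂ ℂ _ _

theorem permRep_char (g : GK K) : (permRep K F).character g = (fixn K F g : ℂ) := by
  classical
  unfold Representation.character
  rw [LinearMap.trace_eq_matrix_trace ℂ (Pi.basisFun ℂ (F →ₐ[K] AlgebraicClosure K))]
  unfold Matrix.trace
  have h1 : ∀ i : F →ₐ[K] AlgebraicClosure K,
      Matrix.diag (LinearMap.toMatrix (Pi.basisFun ℂ (F →ₐ[K] AlgebraicClosure K))
        (Pi.basisFun ℂ (F →ₐ[K] AlgebraicClosure K)) (permRep K F g)) i =
      if act K F g i = i then 1 else 0 := by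
    intro i
    rw [Matrix.diag_apply, LinearMap.toMatrix_apply, Pi.basisFun_apply, Pi.basisFun_repr]
    change (Pi.single i (1 : ℂ) : (F →ₐ[K] AlgebraicClosure K) → ℂ) ((act K F g)⁻¹ i) = _
    by_cases h : act K F g i = i
    · have h2 : (act K F g)⁻¹ i = i := by
        rw [Equiv.Perm.inv_eq_iff_eq]
        exact h.symm
      rw [h2, Pi.single_eq_same, if_pos h]
    · rw [if_neg h, Pi.single_eq_of_ne]
      intro h2
      apply h
      rw [Equiv.Perm.inv_eq_iff_eq] at h2
      exact h2.symm
  rw [Finset.sum_congr rfl fun i _ => h1 i, Finset.sum_boole]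
  unfold fixn
  rw [Nat.card_eq_fintype_card, Fintype.card_subtype]

/-- **The number of the fixed embeddings as a sum of irreducible Artin characters.** -/
theorem fix_decomp (U : Subgroup (GK K)) [U.Normal] [Finite (GK K ⧸ U)]
    (hF : ∀ u ∈ U, act K F u = 1) : ∃ L : List (MRep (GK K)),
    (∀ x ∈ L, x.2.IsIrreducible ∧ ∀ u ∈ U, x.2 u = 1) ∧
      ∀ g, (fixn K F g : ℂ) = (L.map fun x => x.2.character g).sum := by
  have htriv : ∀ u ∈ U, permRep K F u = 1 := by
    intro u hu
    have h1 : permRep K F u = LinearMap.funLeft ℂ ℂ ⇑((act K F u)⁻¹) := rfl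
    rw [h1, hF u hu, inv_one]
    exact LinearMap.ext fun f => LinearMap.funLeft_id ℂ ℂ f
  obtain ⟨L, hL1, hL2⟩ := decomp (Q := GK K ⧸ U) _ ((F →ₐ[K] AlgebraicClosure K) → ℂ)
    (qrep U (permRep K F) htriv) rfl
  refine ⟨L.map (infl U), ?_, ?_⟩
  · intro x hx
    obtain ⟨y, hy, rfl⟩ := List.mem_map.1 hx
    exact ⟨infl_irr U y (hL1 y hy), infl_triv U y⟩
  · intro g
    rw [List.map_map, ← permRep_char]
    exact hL2 (QuotientGroup.mk g)

end

section
variable {Q Y : Type} [Group Q] [Finite Y]

/-- the invariants of a subgroup -/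
noncomputable def invC {V : Type} [AddCommGroup V] [Module ℂ V] (ρ : Representation ℂ Q V)
    (H : Subgroup Q) : Submodule ℂ V := Representation.invariants (ρ.comp H.subtype)

theorem mem_invC {V : Type} [AddCommGroup V] [Module ℂ V] (ρ : Representation ℂ Q V)
    (H : Subgroup Q) (x : V) : x ∈ invC ρ H ↔ ∀ g ∈ H, ρ g x = x := by
  constructor
  · intro h g hg
    exact h ⟨g, hg⟩
  · intro h g
    exact h g g.2

/-- the sum of the character over a subgroup -/
theorem sumC_char [Fintype Q] {V : Type} [AddCommGroup V] [Module ℂ V] [FiniteDimensional ℂ V]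
    (ρ : Representation ℂ Q V) : ∑ g : Q, ρ.character g =
      Fintype.card Q * Module.finrank ℂ ρ.invariants := by
  have h0 : (Nat.card Q : ℂ) ≠ 0 := by exact_mod_cast Nat.card_pos.ne'
  have hinv : Invertible (Nat.card Q : ℂ) := invertibleOfNonzero h0
  have h1 := Representation.card_inv_mul_sum_char_eq_finrank ρ
  rw [← h1, ← Nat.card_eq_fintype_card, mul_inv_cancel_left₀ h0]

/-- **Mean value of a character times a permutation character.** -/
theorem sumC_char_fix [Fintype Q] [Nonempty Y] {V : Type} [AddCommGroup V] [Module ℂ V]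
    [FiniteDimensional ℂ V] (ρ : Representation ℂ Q V) (a : Q →* Equiv.Perm Y)
    (ht : ∀ x y, ∃ g, a g x = y) (y₀ : Y) (H : Subgroup Q) (hH : ∀ g, g ∈ H ↔ a g y₀ = y₀) :
    ∑ g : Q, ρ.character g * (Nat.card {y // a g y = y} : ℂ) =
      Fintype.card Q * Module.finrank ℂ (invC ρ H) := by
  classical
  let _ : Fintype Y := Fintype.ofFinite Y
  let _ : Fintype H := Fintype.ofFinite H
  have hcard : ∀ g : Q, (Nat.card {y // a g y = y} : ℂ) =
      ∑ y : Y, if a g y = y then (1 : ℂ) else 0 := by
    intro g
    rw [Nat.card_eq_fintype_card, Fintype.card_subtype, Finset.sum_boole]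
  have hst : ∀ (f : Q → ℂ), (∀ g u, f (u * g * u⁻¹) = f g) → ∀ y : Y,
      (∑ g : Q, if a g y = y then f g else 0) = ∑ g : H, f g := by
    intro f hf y
    obtain ⟨u, hu⟩ := ht y₀ y
    rw [← Finset.sum_filter]
    refine Finset.sum_bij' (i := fun g hg => (⟨u⁻¹ * g * u, ?_⟩ : H))
      (j := fun h _ => u * (h : Q) * u⁻¹) ?_ ?_ ?_ ?_ ?_
    · rw [hH, map_mul, map_mul, Equiv.Perm.mul_apply, Equiv.Perm.mul_apply, hu,
        (Finset.mem_filter.1 hg).2, ← hu, map_inv]
      exact (a u).symm_apply_apply y₀
    · intro g hg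
      exact Finset.mem_univ _
    · intro h _
      rw [Finset.mem_filter]
      refine ⟨Finset.mem_univ _, ?_⟩
      have h1 : a (h : Q) y₀ = y₀ := (hH _).1 h.2
      have h2 : (a u)⁻¹ y = y₀ := by
        rw [← hu]
        exact (a u).symm_apply_apply y₀
      rw [map_mul, map_mul, Equiv.Perm.mul_apply, Equiv.Perm.mul_apply, map_inv, h2, h1, hu]
    · intro g _
      simp only
      group
    · intro h _
      refine Subtype.ext ?_
      simp only
      group
    · intro g _
      simp only
      have := hf g u⁻¹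
      rw [inv_inv] at this
      exact this.symm
  have hsw : ∀ f : Q → ℂ, (∀ g u, f (u * g * u⁻¹) = f g) →
      ∑ g : Q, f g * (Nat.card {y // a g y = y} : ℂ) = Fintype.card Y * ∑ g : H, f g := by
    intro f hf
    have h1 : ∀ g : Q, f g * (Nat.card {y // a g y = y} : ℂ) =
        ∑ y : Y, if a g y = y then f g else 0 := by
      intro g
      rw [hcard, Finset.mul_sum]
      exact Finset.sum_congr rfl fun y _ => by rw [mul_ite, mul_one, mul_zero]
    rw [Finset.sum_congr rfl fun g _ => h1 g, Finset.sum_comm,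
      Finset.sum_congr rfl fun y _ => hst f hf y, Finset.sum_const, Finset.card_univ,
      nsmul_eq_mul]
  have hb : (Fintype.card Y : ℂ) * Fintype.card H = Fintype.card Q := by
    have h1 := hsw (fun _ => 1) fun _ _ => rfl
    simp only [one_mul, Finset.sum_const, Finset.card_univ, nsmul_eq_mul, mul_one] at h1
    rw [← h1]
    have h2 := Pool.Agent.W353.NF.burnside a ht
    rw [finsum_eq_sum_of_fintype, Nat.card_eq_fintype_card] at h2
    exact_mod_cast congrArg (fun x : ℝ => (x : ℂ)) h2
  have hcl : ∀ g u : Q, ρ.character (u * g * u⁻¹) = ρ.character g := fun g u =>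
    Representation.char_conj ρ g u
  have hH' : ∑ g : H, ρ.character (g : Q) = Fintype.card H * Module.finrank ℂ (invC ρ H) :=
    sumC_char (ρ.comp H.subtype)
  rw [hsw _ hcl, hH', ← mul_assoc, hb]

end

end Pool.Agent.W353.AT
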