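import Pool.Agent.W353.AT.Link

/-! Tate's conjecture on the pole over all number fields: proofs. -/

set_option autoImplicit false

namespace Pool.Agent.W353.AT

open Complex Filter Topology NumberField IsDedekindDomain Polynomial
  Pool.Agent.W401.Cheb Pool.Agent.W540.BE Pool.Agent.W353.L1
open Pool.Agent.W353.NF (act fixn cz TT size_fix SzH vx)
open Pool.Agent.W353.TP (HX)
open Pool.Agent.H341R2 (lam)
open Pool.Agent.W353.EF (LFun)
open Pool.Agent.W353.EH (edgePoint size)
open Pool.Agent.W353.TD (ch rank IsPart syD syD_real size_D tF_sub_le)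
open Pool.Agent.W353.PV (tF size_X0)

section
variable {K : Type} [Field K] [NumberField K] {l : ℕ} {X : Set (MvPolynomial (Fin l) (𝓞 K))}
  {d m N : ℕ} {V : Type} [AddCommGroup V] [Module ℚ V] [FiniteDimensional ℚ V]
  {ρ : Representation ℚ (GK K) V}

open Classical in
/-- **Tate's conjecture over all number fields.** -/
theorem tateOverAllFields (hmd : m ≤ d) (hpart : IsPart X d m N ρ) :
    TateOverAllFields X d m N ρ := by
  classical
  have hi : 2 * m ≤ 2 * d := by omega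
  set s : ℕ := N - Module.finrank ℚ V with hs
  choose σ hσ using exists_isFrob (F := K)
  obtain ⟨hρ, hV⟩ := hpart
  have hgood : ∀ᶠ v in cofinite, |tF X d (2 * m) N K v - ch ρ (σ v)⁻¹| ≤ s := by
    refine hV.mono fun v hv => ?_
    obtain ⟨α, h1, h2⟩ := hv (σ v) (hσ v)
    exact tF_sub_le (ρ := ρ) hi (σ := σ v) h1 h2
  have hrank : ∀ F : IntermediateField K (AlgebraicClosure K),
      rank ρ F = Module.finrank ℚ (TD.inv ρ F.val.fieldRange.fixingSubgroup) := by
    intro F
    rw [TD.inv_eq, IntermediateField.fieldRange_val]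
    rfl
  have hT : ∀ v, |tC ρ X d (2 * m) N s σ v| ≤ (s : ℝ) := fun v => abs_tC _ _ _ _ _ _ _ _
  refine ⟨?_, ?_⟩
  · intro κ _ n χ B hA hirr hne hB
    obtain ⟨U, hUn, hU, hχ⟩ := exists_common χ hA
    have hfin : Finite (GK K ⧸ U) := Subgroup.quotient_finite_of_isOpen U hU
    have h1 := fun k => tw_C hi hσ hgood hρ ⟨n k, χ k⟩ (hA k) (B k) (hB k)
    refine ⟨fun k => (h1 k).1, fun η hη => ?_⟩
    exact bessel U hU Finset.univ χ hχ (fun _ => (0 : ℝ)) σ hσ (Nat.cast_nonneg s) hT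
      (x := fun k ε => size (2 * m) 0 (B k) ε - twistRank ρ (χ k))
      (fun k _ => (h1 k).2) (fun k _ => hirr k) (fun k _ k' _ h _ => hne k k' h) hη
  · intro H
    -- the defects
    have hD : ∃ D : MRep (GK K) → ℤ, ∀ x, Irr x → TwistDefect X d m N ρ x.2 (D x) := by
      have h1 : ∀ x : MRep (GK K), ∃ δ : ℤ, Irr x → TwistDefect X d m N ρ x.2 δ := by
        intro x
        by_cases hx : Irr x
        · obtain ⟨δ, hδ⟩ := H x.1 x.2 hx.1 hx.2
          exact ⟨δ, fun _ => hδ⟩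
        · exact ⟨0, fun h => absurd h hx⟩
      choose D hD using h1
      exact ⟨D, hD⟩
    obtain ⟨D, hD⟩ := hD
    have hδ : ∀ x, Irr x → ∀ t ∈ ({0} : Set ℝ),
        Lim (tC ρ X d (2 * m) N s σ) σ x t ((fun (x : MRep (GK K)) (_ : ℝ) => -D x) x t : ℤ) := by
      intro x hx t ht
      rw [Set.mem_singleton_iff] at ht
      subst ht
      obtain ⟨B, hB, hlim⟩ := hD x hx
      have h1 := (tw_C hi hσ hgood hρ x hx.1 B hB).2
      have h2 := h1.add (hlim.sub_const (twistRank ρ x.2 : ℝ))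
      unfold Lim
      have e : (0 : ℝ) + ((twistRank ρ x.2 : ℝ) - D x - twistRank ρ x.2) =
          (((fun (x : MRep (GK K)) (_ : ℝ) => -D x) x 0 : ℤ) : ℝ) := by
        push_cast
        ring
      rw [e] at h2
      refine h2.congr fun ε => ?_
      ring
    obtain ⟨E, hE, hE2⟩ := exists_E hT hσ hδ
    have hE0 : ∀ p ∈ E, p.2 = 0 := fun p hp => hE.mem p hp
    have hEf : ∀ f : MRep (GK K) × ℝ → ℤ, ∑ p ∈ E with p.2 = 0, f p = ∑ p ∈ E, f p := by
      intro f
      rw [Finset.filter_true_of_mem hE0]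
    obtain ⟨M, hM1, hM2, hM3⟩ := exists_M (E := E) fun p hp => (hE.irr p hp).1
    -- the sizes over number fields
    have hF : ∀ (F : IntermediateField K (AlgebraicClosure K)) [NumberField F]
        (B : HeightOneSpectrum (𝓞 F) → ℂ[X]), EF.IsEulerSystem X d (2 * m) N B →
        (∀ᶠ ε : ℝ in 𝓝[>] 0, LFun B (((2 * m : ℕ) : ℂ) / 2 + 1 + ε) ≠ 0) ∧
        Tendsto (EF.size (2 * m) B) (𝓝[>] 0)
          (𝓝 ((rank ρ F : ℝ) - ∑ p : E, (D p.1.1 : ℝ) * fixedDim p.1.1.2 F)) := by
      intro F _ B hB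
      have h1 := size_X0 hi B hB.1 hB.2 (fun _ : Fin 0 => (1 : 𝓞 F))
      refine ⟨h1.1, ?_⟩
      have h2 := size_D ρ X d (2 * m) N s σ hσ hgood hρ _ _ h1.2 F.val
      have h3 := size_fix _ (syD_real ρ X d (2 * m) N s σ) σ hσ h2
      have h4 := has_F (Nat.cast_nonneg s) hT hδ hE hE2 (Set.mem_singleton (0 : ℝ)) F.val
      have h5 := lim_of_has (T' := tC ρ X d (2 * m) N s σ)
        (T := TT (syD ρ X d (2 * m) N s σ)) (fun x => ?_) h3 h4
      · have h6 := h5.add_const (rank ρ F : ℝ)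
        rw [IntermediateField.fieldRange_val, hEf] at h6
        have e : ((∑ p ∈ E, (fun (x : MRep (GK K)) (_ : ℝ) => -D x) p.1 0 *
            (Module.finrank ℂ (invC p.1.2 F.fixingSubgroup) : ℤ) : ℤ) : ℝ) + rank ρ F =
            (rank ρ F : ℝ) - ∑ p : E, (D p.1.1 : ℝ) * fixedDim p.1.1.2 F := by
          rw [Finset.sum_coe_sort E (fun p => (D p.1 : ℝ) * fixedDim p.1.2 F)]
          push_cast
          rw [add_comm, sub_eq_add_neg, ← Finset.sum_neg_distrib]
          congr 1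
          refine Finset.sum_congr rfl fun p _ => ?_
          rw [neg_mul]
          rfl
        rw [e] at h6
        refine h6.congr fun ε => ?_
        have hr := hrank F
        rw [IntermediateField.fieldRange_val] at hr
        rw [hr, sub_add_cancel]
        rfl
      · have e3 : TT (syD ρ X d (2 * m) N s σ) x =
            ∑ _j ∈ ({()} : Finset Unit), (((TD.tD ρ X d (2 * m) N s σ x : ℝ) : ℂ)).re := rfl
        rw [e3, Finset.sum_singleton, Complex.ofReal_re]
        rfl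
    have hfix : ∀ (F : IntermediateField K (AlgebraicClosure K)) (p : E),
        fixedDim p.1.1.2 F =
          fixedDim p.1.1.2 (F ⊓ M : IntermediateField K (AlgebraicClosure K)) := by
      intro F p
      have h1 := hM3 F p.1 p.2
      have e : ∀ F' : IntermediateField K (AlgebraicClosure K),
          fixedDim p.1.1.2 F' = Module.finrank ℂ (invC p.1.1.2 F'.fixingSubgroup) := fun _ => rfl
      rw [e, e, h1]
    refine ⟨E, inferInstance, fun k => k.1.1.1, fun k => k.1.1.2, fun k => D k.1.1, M,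
      fun k => ⟨(hE.irr k.1 k.2).1, (hE.irr k.1 k.2).2,
        fun h => hE.ne k.1 k.2 (neg_eq_zero.2 h), hD k.1.1 (hE.irr k.1 k.2)⟩,
      fun k k' hkk => ?_, ?_, ?_, hM1, hM2,
      fun F _ => ⟨fun B hB => hF F B hB, fun k => hfix F k, ?_⟩⟩
    · exact not_nonempty_iff.1 (hE.ineq k.1 k.2 k'.1 k'.2 (fun h => hkk (Subtype.ext h))
        ((hE0 k.1 k.2).trans (hE0 k'.1 k'.2).symm))
    · have h1 := hE.bound hT hσ hδ
      refine le_trans (le_of_eq ?_) h1
      rw [Finset.sum_coe_sort E (fun p => D p.1 ^ 2)]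
      exact Finset.sum_congr rfl fun p _ => (neg_sq _).symm
    · intro n' χ' hA' hirr' hne'
      have hx : Irr (⟨n', χ'⟩ : MRep (GK K)) := ⟨hA', hirr'⟩
      have h1 := hD ⟨n', χ'⟩ hx
      have h2 : D ⟨n', χ'⟩ = 0 := by
        by_contra hne0
        obtain ⟨p, hp, -, hsim⟩ := hE2 ⟨n', χ'⟩ 0 hx (Set.mem_singleton 0) (neg_ne_zero.2 hne0)
        exact (not_nonempty_iff.2 (hne' ⟨p, hp⟩)) hsim
      rw [h2] at h1
      exact h1
    · rintro δ₁ δ₂ ⟨hn1, B₁, hB₁, h1⟩ ⟨hn2, B₂, hB₂, h2⟩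
      have h3 := tendsto_nhds_unique h1 (hF F B₁ hB₁).2
      have h4 := tendsto_nhds_unique h2 (hF (F ⊓ M) B₂ hB₂).2
      have h5 : ∑ p : E, (D p.1.1 : ℝ) * fixedDim p.1.1.2 F =
          ∑ p : E, (D p.1.1 : ℝ) *
            fixedDim p.1.1.2 (F ⊓ M : IntermediateField K (AlgebraicClosure K)) :=
        Finset.sum_congr rfl fun p _ => by rw [hfix F p]
      have h6 : (δ₁ : ℝ) = δ₂ := by linarith
      exact_mod_cast h6

end

end Pool.Agent.W353.AT
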